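import Mathlib

/-!
# Incomparable weakly random cograph limits

A limit is given by the induced densities of the finite graphs in a graphon `W`.  A sub-object of
it is obtained by viewing a graphon `W` which represents it on the probability space with density
`f / ∫ f`, for a measurable `f : [0,1] → [0,1]` with positive integral.  The class of the limits
`φ` for which the graphs with positive density in `φ`, the graphs with positive density in all
sub-objects of `φ`, and the cographs are the same is shown to contain continuum many pairwise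
incomparable elements.

For a sequence `G` of bits the graphon `WG G` joins two points if `G i` is true, where `i` is the
first binary digit at which they differ.  If `G` takes both values infinitely often, then the limit
of `WG G` is in the class.  To see that a cograph `H` has positive density in every sub-object, the
mean value of `f` is bounded by the expected relative size of a largest `H`-free subset of a random
graph on `n` vertices; this depends only on the limit, so it can be computed in `WG G`, where it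
tends to `0`, because dense sets of binary strings contain all cographs.

If two sequences differ on infinitely many windows `[s, e)` with `e ≥ 8 ^ s`, then their limits are
incomparable: the complete or the empty graph on `2 ^ s + 1` vertices has density at least
`2 ^ (- (2 s + 2) (2 ^ s + 1))` in one of them and at most `2 (2 ^ s + 1) ^ 2 * 2 ^ (- e)` in the
other one, whereas in a sub-object densities grow by a factor of at most `C ^ n`.
-/

set_option autoImplicit false

namespace Pool.Agent.Results.MP_815355_co.Antichain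

open MeasureTheory
open scoped unitInterval Classical

/-- A graphon: a symmetric measurable function `[0,1]² → [0,1]`. -/
structure Graphon where
  toFun : I → I → ℝ
  measurable : Measurable (Function.uncurry toFun)
  symm : ∀ x y, toFun x y = toFun y x
  nonneg : ∀ x y, 0 ≤ toFun x y
  le_one : ∀ x y, toFun x y ≤ 1

/-- The product of `W (x i) (x j)` over the edges `i j` of `H` and of `1 - W (x i) (x j)` over the
non-edges `i j` of `H`. -/
noncomputable def weight (W : Graphon) {n : ℕ} (H : SimpleGraph (Fin n)) (x : Fin n → I) : ℝ :=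
  ∏ p ∈ Finset.univ.filter (fun p : Fin n × Fin n => p.1 < p.2),
    if H.Adj p.1 p.2 then W.toFun (x p.1) (x p.2) else 1 - W.toFun (x p.1) (x p.2)

/-- The induced density of the graph `H` on the vertices `0, …, n - 1` in `W`, viewed on the
probability space with density `f / ∫ f`. -/
noncomputable def dens (W : Graphon) (f : I → ℝ) (n : ℕ) (H : SimpleGraph (Fin n)) : ℝ :=
  (∫ x : Fin n → I, (∏ i, f (x i)) * weight W H x) / (∫ t, f t) ^ n

/-- A function which assigns a real number to every finite graph. -/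
abbrev Param : Type := (n : ℕ) → SimpleGraph (Fin n) → ℝ

/-- `W` represents `φ`: the values of `φ` are the induced densities in `W`. -/
def Represents (W : Graphon) (φ : Param) : Prop := ∀ n H, φ n H = dens W (fun _ => 1) n H

/-- `φ` is a limit, that is, it is represented by some graphon. -/
def IsLimit (φ : Param) : Prop := ∃ W : Graphon, Represents W φ

/-- The limit `ψ` is a sub-object of `φ`. -/
def SubObject (ψ φ : Param) : Prop :=
  IsLimit ψ ∧ ∃ (W : Graphon) (f : I → ℝ), Represents W φ ∧ Measurable f ∧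
    (∀ t, 0 ≤ f t ∧ f t ≤ 1) ∧ 0 < ∫ t, f t ∧ ∀ n H, ψ n H = dens W f n H

/-- The set of the finite graphs with positive density. -/
def Q (φ : Param) : Set (Σ n : ℕ, SimpleGraph (Fin n)) := {H | 0 < φ H.1 H.2}

/-- The set of the finite graphs with positive density in every sub-object. -/
def P (φ : Param) : Set (Σ n : ℕ, SimpleGraph (Fin n)) := {H | ∀ ψ, SubObject ψ φ → H ∈ Q ψ}

/-- Expressions for building graphs from single vertices. -/
inductive Cotree : Type
  | leaf : Cotree
  | node (c : Bool) (a b : Cotree) : Cotree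

/-- The vertex set of the graph which an expression describes. -/
def Cotree.V : Cotree → Type
  | .leaf => Unit
  | .node _ a b => a.V ⊕ b.V

/-- The adjacency relation of the graph which an expression describes: `node false a b` is the
disjoint union and `node true a b` is the join of the graphs of `a` and `b`. -/
def Cotree.adj : (t : Cotree) → t.V → t.V → Prop
  | .leaf, _, _ => False
  | .node _ a _, .inl u, .inl v => a.adj u v
  | .node _ _ b, .inr u, .inr v => b.adj u v
  | .node c _ _, .inl _, .inr _ => c = true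
  | .node c _ _, .inr _, .inl _ => c = true

/-- The finite cographs, including the graph without vertices. -/
def Cographs : Set (Σ n : ℕ, SimpleGraph (Fin n)) :=
  {H | H.1 = 0 ∨ ∃ (t : Cotree) (e : Fin H.1 ≃ t.V), ∀ i j, H.2.Adj i j ↔ t.adj (e i) (e j)}

/-- The limits `φ` with `P φ = Q φ = Cographs`. -/
def PhiF : Set Param := {φ | IsLimit φ ∧ P φ = Cographs ∧ Q φ = Cographs}

/-! ### Binary digits -/

/-- the doubling map -/
noncomputable def dbl (x : ℝ) : ℝ := if x < 1 / 2 then 2 * x else 2 * x - 1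

/-- the binary digits -/
noncomputable def dig (i : ℕ) (x : ℝ) : Bool := decide (1 / 2 ≤ dbl^[i] x)

/-- the adjacency of two points for the sequence `G` -/
def Wrel (G : ℕ → Bool) (x y : ℝ) : Prop :=
  ∃ i, (∀ j < i, dig j x = dig j y) ∧ dig i x ≠ dig i y ∧ G i = true

/-- strings of `L` binary digits -/
def Cube : ℕ → Type
  | 0 => Unit
  | L + 1 => Bool × Cube L

instance instFintypeCube : (L : ℕ) → Fintype (Cube L)
  | 0 => inferInstanceAs (Fintype Unit)
  | L + 1 => by
    have := instFintypeCube L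
    exact inferInstanceAs (Fintype (Bool × Cube L))

theorem card_cube (L : ℕ) : Fintype.card (Cube L) = 2 ^ L := by
  induction L with
  | zero => rfl
  | succ L ih =>
    have : Fintype.card (Cube (L + 1)) = Fintype.card (Bool × Cube L) := rfl
    rw [this, Fintype.card_prod, ih, Fintype.card_bool, pow_succ, mul_comm]

/-- the string with first digit `b` and then `v` -/
def ccons {L : ℕ} (b : Bool) (v : Cube L) : Cube (L + 1) := (b, v)

/-- the first digit -/
def chd {L : ℕ} (a : Cube (L + 1)) : Bool := a.1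

/-- the string without the first digit -/
def ctl {L : ℕ} (a : Cube (L + 1)) : Cube L := a.2

theorem ccons_hd_tl {L : ℕ} (a : Cube (L + 1)) : ccons (chd a) (ctl a) = a := rfl

theorem chd_ccons {L : ℕ} (b : Bool) (v : Cube L) : chd (ccons b v) = b := rfl

theorem ctl_ccons {L : ℕ} (b : Bool) (v : Cube L) : ctl (ccons b v) = v := rfl

/-- the first `L` binary digits -/
noncomputable def digs : (L : ℕ) → ℝ → Cube L
  | 0, _ => ()
  | L + 1, x => (dig 0 x, digs L (dbl x))

/-- the adjacency of strings for the sequence `G` -/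
def cadj : (L : ℕ) → (ℕ → Bool) → Cube L → Cube L → Prop
  | 0, _, _, _ => False
  | L + 1, G, a, b => if a.1 = b.1 then cadj L (fun i => G (i + 1)) a.2 b.2 else G 0 = true

theorem dig_succ (i : ℕ) (x : ℝ) : dig (i + 1) x = dig i (dbl x) := by
  simp [dig, Function.iterate_succ]

theorem Wrel_succ_eq (G : ℕ → Bool) (x y : ℝ) (h : dig 0 x = dig 0 y) :
    Wrel G x y ↔ Wrel (fun i => G (i + 1)) (dbl x) (dbl y) := by
  constructor
  · rintro ⟨i, h1, h2, h3⟩
    rcases i with _ | i
    · exact absurd h h2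
    · refine ⟨i, fun j hj => ?_, ?_, h3⟩
      · rw [← dig_succ, ← dig_succ]; exact h1 _ (by omega)
      · rw [← dig_succ, ← dig_succ]; exact h2
  · rintro ⟨i, h1, h2, h3⟩
    refine ⟨i + 1, fun j hj => ?_, ?_, h3⟩
    · rcases j with _ | j
      · exact h
      · rw [dig_succ, dig_succ]; exact h1 _ (by omega)
    · rw [dig_succ, dig_succ]; exact h2

theorem Wrel_succ_ne (G : ℕ → Bool) (x y : ℝ) (h : dig 0 x ≠ dig 0 y) :
    Wrel G x y ↔ G 0 = true := by
  constructor
  · rintro ⟨i, h1, h2, h3⟩
    rcases i with _ | i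
    · exact h3
    · exact absurd (h1 0 (by omega)) h
  · intro h3
    exact ⟨0, fun j hj => absurd hj (by omega), h, h3⟩

theorem Wrel_symm {G : ℕ → Bool} {x y : ℝ} (h : Wrel G x y) : Wrel G y x := by
  obtain ⟨i, h1, h2, h3⟩ := h
  exact ⟨i, fun j hj => (h1 j hj).symm, h2.symm, h3⟩

theorem Wrel_self (G : ℕ → Bool) (x : ℝ) : ¬ Wrel G x x := by
  rintro ⟨i, -, h2, -⟩
  exact h2 rfl

theorem Wrel_iff_cadj (L : ℕ) : ∀ (G : ℕ → Bool) (x y : ℝ), digs L x ≠ digs L y →
    (Wrel G x y ↔ cadj L G (digs L x) (digs L y)) := by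
  induction L with
  | zero => intro G x y h; exact absurd rfl h
  | succ L ih =>
    intro G x y h
    by_cases h0 : dig 0 x = dig 0 y
    · rw [Wrel_succ_eq G x y h0]
      have h1 : digs L (dbl x) ≠ digs L (dbl y) := by
        intro h2
        apply h
        show (dig 0 x, digs L (dbl x)) = (dig 0 y, digs L (dbl y))
        rw [h0, h2]
      rw [ih _ _ _ h1]
      show _ ↔ if dig 0 x = dig 0 y then _ else _
      rw [if_pos h0]
      rfl
    · rw [Wrel_succ_ne G x y h0]
      show _ ↔ if dig 0 x = dig 0 y then _ else _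
      rw [if_neg h0]

theorem digs_eq_iff (L : ℕ) : ∀ (x y : ℝ), digs L x = digs L y ↔ ∀ i < L, dig i x = dig i y := by
  induction L with
  | zero => intro x y; exact ⟨fun _ i hi => absurd hi (by omega), fun _ => rfl⟩
  | succ L ih =>
    intro x y
    constructor
    · intro h
      have h1 : dig 0 x = dig 0 y := congrArg Prod.fst h
      have h2 : digs L (dbl x) = digs L (dbl y) := congrArg Prod.snd h
      intro i hi
      rcases i with _ | i
      · exact h1
      · rw [dig_succ, dig_succ]; exact (ih _ _).1 h2 i (by omega)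
    · intro h
      have h1 : dig 0 x = dig 0 y := h 0 (by omega)
      have h2 : digs L (dbl x) = digs L (dbl y) := (ih _ _).2 fun i hi => by
        rw [← dig_succ, ← dig_succ]; exact h _ (by omega)
      show (dig 0 x, digs L (dbl x)) = (dig 0 y, digs L (dbl y))
      rw [h1, h2]

theorem dbl_mem {x : ℝ} (h0 : 0 ≤ x) (h1 : x ≤ 1) : 0 ≤ dbl x ∧ dbl x ≤ 1 := by
  unfold dbl
  by_cases h : x < 1 / 2
  · rw [if_pos h]; constructor <;> linarith
  · rw [if_neg h]; rw [not_lt] at h; constructor <;> linarith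

theorem dig_zero (x : ℝ) : dig 0 x = decide (1 / 2 ≤ x) := rfl

theorem digs_close (L : ℕ) : ∀ (x y : ℝ), 0 ≤ x → x ≤ 1 → 0 ≤ y → y ≤ 1 → digs L x = digs L y →
    |x - y| ≤ (1 / 2) ^ L := by
  induction L with
  | zero => intro x y h1 h2 h3 h4 _; rw [pow_zero, abs_le]; constructor <;> linarith
  | succ L ih =>
    intro x y h1 h2 h3 h4 h
    have e1 : dig 0 x = dig 0 y := congrArg Prod.fst h
    have e2 : digs L (dbl x) = digs L (dbl y) := congrArg Prod.snd h
    have h5 := ih _ _ (dbl_mem h1 h2).1 (dbl_mem h1 h2).2 (dbl_mem h3 h4).1 (dbl_mem h3 h4).2 e2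
    rw [dig_zero, dig_zero, decide_eq_decide] at e1
    have h6 : dbl x - dbl y = 2 * (x - y) := by
      unfold dbl
      by_cases hx : x < 1 / 2
      · have hy : y < 1 / 2 := by
          by_contra hy; exact absurd (e1.2 (not_lt.1 hy)) (not_le.2 hx)
        rw [if_pos hx, if_pos hy]; ring
      · have hy : ¬ y < 1 / 2 := by
          intro hy; exact absurd (e1.1 (not_lt.1 hx)) (not_le.2 hy)
        rw [if_neg hx, if_neg hy]; ring
    rw [h6, abs_mul, abs_of_pos (by norm_num : (0:ℝ) < 2)] at h5
    rw [pow_succ]; linarith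

theorem digs_close_lt (L : ℕ) : ∀ (x y : ℝ), 0 ≤ x → x < 1 → 0 ≤ y → y < 1 →
    digs L x = digs L y → |x - y| < (1 / 2) ^ L := by
  induction L with
  | zero => intro x y h1 h2 h3 h4 _; rw [pow_zero, abs_lt]; constructor <;> linarith
  | succ L ih =>
    intro x y h1 h2 h3 h4 h
    have e1 : dig 0 x = dig 0 y := congrArg Prod.fst h
    have e2 : digs L (dbl x) = digs L (dbl y) := congrArg Prod.snd h
    have hd : ∀ z : ℝ, z < 1 → dbl z < 1 := by
      intro z hz; unfold dbl; split_ifs <;> linarith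
    have h5 := ih _ _ (dbl_mem h1 h2.le).1 (hd x h2) (dbl_mem h3 h4.le).1 (hd y h4) e2
    rw [dig_zero, dig_zero, decide_eq_decide] at e1
    have h6 : dbl x - dbl y = 2 * (x - y) := by
      unfold dbl
      by_cases hx : x < 1 / 2
      · have hy : y < 1 / 2 := by
          by_contra hy; exact absurd (e1.2 (not_lt.1 hy)) (not_le.2 hx)
        rw [if_pos hx, if_pos hy]; ring
      · have hy : ¬ y < 1 / 2 := by
          intro hy; exact absurd (e1.1 (not_lt.1 hx)) (not_le.2 hy)
        rw [if_neg hx, if_neg hy]; ring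
    rw [h6, abs_mul, abs_of_pos (by norm_num : (0:ℝ) < 2)] at h5
    rw [pow_succ]; linarith

theorem digs_small (L : ℕ) : ∀ (x y : ℝ), x < (1 / 2) ^ L → y < (1 / 2) ^ L →
    digs L x = digs L y := by
  induction L with
  | zero => intro x y _ _; rfl
  | succ L ih =>
    intro x y hx hy
    have hp : ((1:ℝ) / 2) ^ (L + 1) ≤ 1 / 2 := by
      rw [pow_succ]
      have : ((1:ℝ) / 2) ^ L ≤ 1 := pow_le_one₀ (by norm_num) (by norm_num)
      linarith
    have hx1 : x < 1 / 2 := lt_of_lt_of_le hx hp
    have hy1 : y < 1 / 2 := lt_of_lt_of_le hy hp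
    have e1 : dig 0 x = dig 0 y := by
      rw [dig_zero, dig_zero, decide_eq_decide]
      constructor <;> intro h <;> linarith
    have e2 : digs L (dbl x) = digs L (dbl y) := by
      apply ih
      · unfold dbl; rw [if_pos hx1]; rw [pow_succ] at hx; linarith
      · unfold dbl; rw [if_pos hy1]; rw [pow_succ] at hy; linarith
    show (dig 0 x, digs L (dbl x)) = (dig 0 y, digs L (dbl y))
    rw [e1, e2]

/-! ### Dense sets of strings contain all cographs -/

/-- the graph of `t` embeds into the set `T` of strings -/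
def Emb (t : Cotree) (L : ℕ) (G : ℕ → Bool) (T : Finset (Cube L)) : Prop :=
  ∃ ι : t.V → Cube L, Function.Injective ι ∧ (∀ v, ι v ∈ T) ∧
    ∀ u v, u ≠ v → (t.adj u v ↔ cadj L G (ι u) (ι v))

/-- the strings in `T` with the given first digit, without this digit -/
noncomputable def half (L : ℕ) (b : Bool) (T : Finset (Cube (L + 1))) : Finset (Cube L) :=
  Finset.univ.filter fun v => ccons b v ∈ T

theorem card_half (L : ℕ) (T : Finset (Cube (L + 1))) :
    T.card = (half L false T).card + (half L true T).card := by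
  classical
  have h1 : ∀ b : Bool, (half L b T).card = (T.filter fun a => chd a = b).card := by
    intro b
    apply Finset.card_bij (fun v _ => ccons b v)
    · intro v hv
      rw [half, Finset.mem_filter] at hv
      rw [Finset.mem_filter]; exact ⟨hv.2, rfl⟩
    · intro v _ w _ h
      exact congrArg ctl h
    · intro a ha
      rw [Finset.mem_filter] at ha
      obtain ⟨ha1, ha2⟩ := ha
      refine ⟨ctl a, ?_, ?_⟩
      · rw [half, Finset.mem_filter]
        refine ⟨Finset.mem_univ _, ?_⟩
        rw [← ha2, ccons_hd_tl]; exact ha1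
      · rw [← ha2, ccons_hd_tl]
  rw [h1, h1, ← Finset.card_union_of_disjoint]
  · congr 1
    ext a
    rw [Finset.mem_union, Finset.mem_filter, Finset.mem_filter]
    constructor
    · intro h
      rcases hb : chd a with _ | _
      · left; exact ⟨h, rfl⟩
      · right; exact ⟨h, rfl⟩
    · rintro (h | h)
      · exact h.1
      · exact h.1
  · rw [Finset.disjoint_filter]
    intro a _ h; rw [h]; simp

theorem Emb_half (t : Cotree) (L : ℕ) (G : ℕ → Bool) (b : Bool) (T : Finset (Cube (L + 1)))
    (h : Emb t L (fun i => G (i + 1)) (half L b T)) : Emb t (L + 1) G T := by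
  obtain ⟨ι, h1, h2, h3⟩ := h
  refine ⟨fun v => ccons b (ι v), ?_, ?_, ?_⟩
  · intro u v huv; exact h1 (congrArg ctl huv)
  · intro v
    have := h2 v
    rw [half, Finset.mem_filter] at this
    exact this.2
  · intro u v huv
    rw [h3 u v huv]
    show _ ↔ if b = b then _ else _
    rw [if_pos rfl]
    exact Iff.rfl

theorem Emb_node (c : Bool) (s t : Cotree) (L : ℕ) (G : ℕ → Bool) (T : Finset (Cube (L + 1)))
    (hc : G 0 = c) (hs : Emb s L (fun i => G (i + 1)) (half L false T))
    (ht : Emb t L (fun i => G (i + 1)) (half L true T)) : Emb (.node c s t) (L + 1) G T := by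
  obtain ⟨ι, h1, h2, h3⟩ := hs
  obtain ⟨κ, k1, k2, k3⟩ := ht
  refine ⟨Sum.elim (fun v => ccons false (ι v)) (fun v => ccons true (κ v)), ?_, ?_, ?_⟩
  · rintro (u | u) (v | v) huv
    · exact congrArg Sum.inl (h1 (congrArg ctl huv))
    · exact absurd (congrArg chd huv) Bool.false_ne_true
    · exact absurd (congrArg chd huv).symm Bool.false_ne_true
    · exact congrArg Sum.inr (k1 (congrArg ctl huv))
  · rintro (v | v)
    · have := h2 v
      rw [half, Finset.mem_filter] at this
      exact this.2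
    · have := k2 v
      rw [half, Finset.mem_filter] at this
      exact this.2
  · rintro (u | u) (v | v) huv
    · show s.adj u v ↔ if false = false then _ else _
      rw [if_pos rfl]
      exact h3 u v fun h => huv (congrArg _ h)
    · show c = true ↔ if false = true then _ else G 0 = true
      rw [if_neg (by simp), hc]
    · show c = true ↔ if true = false then _ else G 0 = true
      rw [if_neg (by simp), hc]
    · show t.adj u v ↔ if true = true then _ else _
      rw [if_pos rfl]
      exact k3 u v fun h => huv (congrArg _ h)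

theorem dense_emb (t : Cotree) : ∀ (G : ℕ → Bool), (∀ c m, ∃ i, m ≤ i ∧ G i = c) →
    ∀ ε : ℝ, 0 < ε → ∃ L₀ : ℕ, ∀ L ≥ L₀, ∀ T : Finset (Cube L), ¬ Emb t L G T →
      (T.card : ℝ) ≤ ε * 2 ^ L := by
  induction t with
  | leaf =>
    intro G _ ε hε
    refine ⟨0, fun L _ T hT => ?_⟩
    have : T = ∅ := by
      by_contra hne
      obtain ⟨a, ha⟩ := Finset.nonempty_iff_ne_empty.2 hne
      apply hT
      refine ⟨fun _ => a, fun u v _ => rfl, fun _ => ha, fun u v huv => absurd rfl huv⟩
    rw [this]; simp; positivity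
  | node c s t ihs iht =>
    have key : ∀ k : ℕ, ∀ d : ℕ, ∀ (G : ℕ → Bool), (∀ c m, ∃ i, m ≤ i ∧ G i = c) →
        G d = c → ∀ ε : ℝ, 0 < ε → ∃ L₀ : ℕ, ∀ L ≥ L₀, ∀ T : Finset (Cube L),
        ¬ Emb (.node c s t) L G T → (T.card : ℝ) ≤ ((1 / 2) ^ k + ε) * 2 ^ L := by
      intro k
      induction k with
      | zero =>
        intro d G _ _ ε hε
        refine ⟨0, fun L _ T _ => ?_⟩
        have h1 : T.card ≤ 2 ^ L := by rw [← card_cube L]; exact Finset.card_le_univ T
        have h2 : (T.card : ℝ) ≤ 2 ^ L := by exact_mod_cast h1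
        have h3 : (0:ℝ) < 2 ^ L := by positivity
        nlinarith
      | succ k ihk =>
        intro d
        induction d with
        | zero =>
          intro G hG h0 ε hε
          have hG' : ∀ c m, ∃ i, m ≤ i ∧ G (i + 1) = c := by
            intro c m
            obtain ⟨i, hi, hc⟩ := hG c (m + 1)
            refine ⟨i - 1, by omega, ?_⟩
            rw [Nat.sub_add_cancel (by omega)]; exact hc
          obtain ⟨d, -, hd⟩ := hG' c 0
          obtain ⟨L₁, hL₁⟩ := ihk d (fun i => G (i + 1)) hG' hd ε hε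
          obtain ⟨L₂, hL₂⟩ := ihs (fun i => G (i + 1)) hG' ε hε
          obtain ⟨L₃, hL₃⟩ := iht (fun i => G (i + 1)) hG' ε hε
          refine ⟨L₁ + L₂ + L₃ + 1, fun L hL T hT => ?_⟩
          obtain ⟨M, rfl⟩ : ∃ M, L = M + 1 := ⟨L - 1, by omega⟩
          have e0 := hL₁ M (by omega) (half M false T) (fun h => hT (Emb_half _ _ _ _ _ h))
          have e1 := hL₁ M (by omega) (half M true T) (fun h => hT (Emb_half _ _ _ _ _ h))
          rw [card_half]
          push_cast
          have hp : (0:ℝ) < 2 ^ M := by positivity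
          rw [pow_succ (2:ℝ) M, pow_succ ((1:ℝ)/2) k]
          by_cases hs : Emb s M (fun i => G (i + 1)) (half M false T)
          · have ht : ¬ Emb t M (fun i => G (i + 1)) (half M true T) := fun ht =>
              hT (Emb_node c s t M G T h0 hs ht)
            have e2 := hL₃ M (by omega) _ ht
            nlinarith
          · have e2 := hL₂ M (by omega) _ hs
            nlinarith
        | succ d ihd =>
          intro G hG h0 ε hε
          have hG' : ∀ c m, ∃ i, m ≤ i ∧ G (i + 1) = c := by
            intro c m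
            obtain ⟨i, hi, hc⟩ := hG c (m + 1)
            refine ⟨i - 1, by omega, ?_⟩
            rw [Nat.sub_add_cancel (by omega)]; exact hc
          obtain ⟨L₁, hL₁⟩ := ihd (fun i => G (i + 1)) hG' h0 ε hε
          refine ⟨L₁ + 1, fun L hL T hT => ?_⟩
          obtain ⟨M, rfl⟩ : ∃ M, L = M + 1 := ⟨L - 1, by omega⟩
          have e0 := hL₁ M (by omega) (half M false T) (fun h => hT (Emb_half _ _ _ _ _ h))
          have e1 := hL₁ M (by omega) (half M true T) (fun h => hT (Emb_half _ _ _ _ _ h))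
          rw [card_half]
          push_cast
          rw [pow_succ (2:ℝ) M]
          linarith
    intro G hG ε hε
    obtain ⟨k, hk⟩ := exists_pow_lt_of_lt_one (show (0:ℝ) < ε / 2 by linarith)
      (show (1:ℝ) / 2 < 1 by norm_num)
    obtain ⟨d, -, hd⟩ := hG c 0
    obtain ⟨L₀, hL₀⟩ := key k d G hG hd (ε / 2) (by linarith)
    refine ⟨L₀, fun L hL T hT => (hL₀ L hL T hT).trans ?_⟩
    have hp : (0:ℝ) < 2 ^ L := by positivity
    nlinarith

/-! ### Point configurations span cographs -/

/-- the relation `R` on `V` is described by an expression -/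
def HasTree (V : Type) (R : V → V → Prop) : Prop :=
  ∃ (t : Cotree) (e : V ≃ t.V), ∀ u v, R u v ↔ t.adj (e u) (e v)

theorem HasTree.split {V : Type} (R : V → V → Prop) (p : V → Prop) (c : Bool)
    (h1 : HasTree {v // p v} (fun u v => R u v)) (h2 : HasTree {v // ¬ p v} (fun u v => R u v))
    (h3 : ∀ u v, p u → ¬ p v → ((R u v ↔ c = true) ∧ (R v u ↔ c = true))) : HasTree V R := by
  obtain ⟨t₁, e₁, k₁⟩ := h1
  obtain ⟨t₂, e₂, k₂⟩ := h2
  refine ⟨.node c t₁ t₂, (Equiv.sumCompl p).symm.trans (Equiv.sumCongr e₁ e₂), ?_⟩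
  intro u v
  show R u v ↔ (Cotree.node c t₁ t₂).adj (Sum.map e₁ e₂ ((Equiv.sumCompl p).symm u))
    (Sum.map e₁ e₂ ((Equiv.sumCompl p).symm v))
  by_cases hu : p u <;> by_cases hv : p v
  · rw [Equiv.sumCompl_symm_apply_of_pos hu, Equiv.sumCompl_symm_apply_of_pos hv]
    exact k₁ ⟨u, hu⟩ ⟨v, hv⟩
  · rw [Equiv.sumCompl_symm_apply_of_pos hu, Equiv.sumCompl_symm_apply_of_neg hv]
    exact (h3 u v hu hv).1
  · rw [Equiv.sumCompl_symm_apply_of_neg hu, Equiv.sumCompl_symm_apply_of_pos hv]
    exact (h3 v u hv hu).2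
  · rw [Equiv.sumCompl_symm_apply_of_neg hu, Equiv.sumCompl_symm_apply_of_neg hv]
    exact k₂ ⟨u, hu⟩ ⟨v, hv⟩

theorem hasTree_points (G : ℕ → Bool) : ∀ (n : ℕ) (V : Type) [Fintype V], Fintype.card V = n →
    0 < n → ∀ (x : V → ℝ) (R : V → V → Prop), (∀ u, ¬ R u u) →
    (∀ u v, u ≠ v → (R u v ↔ Wrel G (x u) (x v))) → HasTree V R := by
  intro n
  induction n using Nat.strong_induction_on with
  | _ n ih =>
    intro V _ hn hn0 x R hR hx
    obtain ⟨v₀⟩ : Nonempty V := Fintype.card_pos_iff.1 (by omega)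
    by_cases h1 : n = 1
    · have hsub : Subsingleton V := Fintype.card_le_one_iff_subsingleton.1 (by omega)
      refine ⟨.leaf, ⟨fun _ => (() : Unit), fun _ => v₀, fun _ => Subsingleton.elim _ _,
        fun _ => rfl⟩, fun u v => ?_⟩
      have huv : u = v := Subsingleton.elim _ _
      rw [huv]
      exact ⟨fun h => absurd h (hR v), fun h => h.elim⟩
    · have main : ∀ (p : V → Prop) (c : Bool), (∃ u, p u) → (∃ u, ¬ p u) →
          (∀ u v, p u → ¬ p v → ((R u v ↔ c = true) ∧ (R v u ↔ c = true))) → HasTree V R := by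
        intro p c hp hnp hc
        have hcard : Fintype.card {v // p v} + Fintype.card {v // ¬ p v} = n := by
          rw [← hn, ← Fintype.card_sum]; exact Fintype.card_congr (Equiv.sumCompl p)
        have c1 : 0 < Fintype.card {v // p v} := by
          obtain ⟨u, hu⟩ := hp; exact Fintype.card_pos_iff.2 ⟨⟨u, hu⟩⟩
        have c2 : 0 < Fintype.card {v // ¬ p v} := by
          obtain ⟨u, hu⟩ := hnp; exact Fintype.card_pos_iff.2 ⟨⟨u, hu⟩⟩
        apply HasTree.split R p c _ _ hc
        · exact ih _ (by omega) _ rfl c1 (fun u => x u) _ (fun u => hR u)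
            (fun u v huv => hx u v fun h => huv (Subtype.ext h))
        · exact ih _ (by omega) _ rfl c2 (fun u => x u) _ (fun u => hR u)
            (fun u v huv => hx u v fun h => huv (Subtype.ext h))
      by_cases hall : ∃ i, ∃ u v, dig i (x u) ≠ dig i (x v)
      · obtain ⟨u, v, huv⟩ := Nat.find_spec hall
        have hmin : ∀ j < Nat.find hall, ∀ u v, dig j (x u) = dig j (x v) := by
          intro j hj u v
          by_contra hne
          exact Nat.find_min hall hj ⟨u, v, hne⟩
        set i := Nat.find hall with hi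
        have hW : ∀ a b : V, dig i (x a) ≠ dig i (x b) → (Wrel G (x a) (x b) ↔ G i = true) := by
          intro a b hab
          constructor
          · rintro ⟨k, k1, k2, k3⟩
            rcases lt_trichotomy k i with hk | hk | hk
            · exact absurd (hmin k hk a b) k2
            · rw [← hk]; exact k3
            · exact absurd (k1 i hk) hab
          · intro h; exact ⟨i, fun j hj => hmin j hj a b, hab, h⟩
        apply main (fun a => dig i (x a) = dig i (x u)) (G i) ⟨u, rfl⟩ ⟨v, fun h => huv h.symm⟩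
        intro a b ha hb
        have hab : dig i (x a) ≠ dig i (x b) := fun h => hb (by rw [← h]; exact ha)
        have hne : a ≠ b := fun h => hab (by rw [h])
        rw [hx a b hne, hx b a hne.symm, hW a b hab, hW b a hab.symm]
        exact ⟨Iff.rfl, Iff.rfl⟩
      · push Not at hall
        have hnW : ∀ a b : V, ¬ Wrel G (x a) (x b) := by
          rintro a b ⟨i, -, h2, -⟩; exact h2 (hall i a b)
        have hv1 : ∃ v₁, v₁ ≠ v₀ := by
          have : Nontrivial V := Fintype.one_lt_card_iff_nontrivial.1 (by omega)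
          exact exists_ne v₀
        obtain ⟨v₁, hv₁⟩ := hv1
        apply main (fun a => a = v₀) false ⟨v₀, rfl⟩ ⟨v₁, hv₁⟩
        intro a b ha hb
        have hne : a ≠ b := fun h => hb (by rw [← h]; exact ha)
        rw [hx a b hne, hx b a hne.symm]
        simp [hnW]

/-! ### Measurability and elementary bounds -/

theorem weight_term_bounds (W : Graphon) {n : ℕ} (H : SimpleGraph (Fin n)) (x : Fin n → I)
    (p : Fin n × Fin n) :
    0 ≤ (if H.Adj p.1 p.2 then W.toFun (x p.1) (x p.2) else 1 - W.toFun (x p.1) (x p.2)) ∧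
    (if H.Adj p.1 p.2 then W.toFun (x p.1) (x p.2) else 1 - W.toFun (x p.1) (x p.2)) ≤ 1 := by
  have h1 := W.nonneg (x p.1) (x p.2)
  have h2 := W.le_one (x p.1) (x p.2)
  split_ifs <;> constructor <;> linarith

theorem weight_nonneg (W : Graphon) {n : ℕ} (H : SimpleGraph (Fin n)) (x : Fin n → I) :
    0 ≤ weight W H x :=
  Finset.prod_nonneg fun p _ => (weight_term_bounds W H x p).1

theorem weight_le_one (W : Graphon) {n : ℕ} (H : SimpleGraph (Fin n)) (x : Fin n → I) :
    weight W H x ≤ 1 :=
  Finset.prod_le_one (fun p _ => (weight_term_bounds W H x p).1)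
    fun p _ => (weight_term_bounds W H x p).2

theorem measurable_weight (W : Graphon) {n : ℕ} (H : SimpleGraph (Fin n)) :
    Measurable (weight W H) := by
  have h : ∀ a b : Fin n, Measurable fun x : Fin n → I => W.toFun (x a) (x b) := by
    intro a b
    have h1 : Measurable fun x : Fin n → I => (x a, x b) :=
      (measurable_pi_apply a).prodMk (measurable_pi_apply b)
    exact W.measurable.comp h1
  unfold weight
  apply Finset.measurable_prod
  intro p _
  split_ifs
  · exact h _ _
  · exact measurable_const.sub (h _ _)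

theorem integrable_of_bdd {n : ℕ} {g : (Fin n → I) → ℝ} (hg : Measurable g) (C : ℝ)
    (h : ∀ x, |g x| ≤ C) : Integrable g := by
  apply Integrable.of_bound hg.aestronglyMeasurable C
  exact Filter.Eventually.of_forall fun x => by rw [Real.norm_eq_abs]; exact h x

theorem measurable_dbl : Measurable dbl := by
  unfold dbl
  exact Measurable.ite measurableSet_Iio (measurable_const.mul measurable_id)
    ((measurable_const.mul measurable_id).sub measurable_const)

theorem measurable_dig (i : ℕ) : Measurable (dig i) := by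
  apply measurable_to_bool
  have : dig i ⁻¹' {true} = {x | 1 / 2 ≤ dbl^[i] x} := by
    ext x; simp [dig]
  rw [this]
  exact measurableSet_le measurable_const (measurable_dbl.iterate i)

theorem measurableSet_Wrel (G : ℕ → Bool) : MeasurableSet {q : ℝ × ℝ | Wrel G q.1 q.2} := by
  have : {q : ℝ × ℝ | Wrel G q.1 q.2} = ⋃ i : ℕ, ((⋂ j ∈ Finset.range i,
      {q : ℝ × ℝ | dig j q.1 = dig j q.2}) ∩ ({q : ℝ × ℝ | dig i q.1 = dig i q.2}ᶜ ∩
      {_q : ℝ × ℝ | G i = true})) := by
    ext q
    simp only [Wrel, Set.mem_ofPred_eq, Set.mem_iUnion, Set.mem_inter_iff, Set.mem_iInter,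
      Finset.mem_range, Set.mem_compl_iff, ne_eq]
  rw [this]
  have h : ∀ j, MeasurableSet {q : ℝ × ℝ | dig j q.1 = dig j q.2} := fun j =>
    measurableSet_eq_fun ((measurable_dig j).comp measurable_fst)
      ((measurable_dig j).comp measurable_snd)
  apply MeasurableSet.iUnion
  intro i
  apply MeasurableSet.inter
  · exact Finset.measurableSet_biInter _ fun j _ => h j
  · exact (h i).compl.inter (MeasurableSet.const _)

/-- the graphon of the sequence `G` -/
noncomputable def WG (G : ℕ → Bool) : Graphon where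
  toFun x y := if Wrel G x y then 1 else 0
  measurable := by
    have h : Measurable fun q : ℝ × ℝ => if Wrel G q.1 q.2 then (1:ℝ) else 0 :=
      Measurable.ite (measurableSet_Wrel G) measurable_const measurable_const
    exact h.comp ((measurable_subtype_coe.comp measurable_fst).prodMk
      (measurable_subtype_coe.comp measurable_snd))
  symm x y := by
    by_cases h : Wrel G x y
    · rw [if_pos h, if_pos (Wrel_symm h)]
    · rw [if_neg h, if_neg fun h' => h (Wrel_symm h')]
  nonneg x y := by split_ifs <;> norm_num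
  le_one x y := by split_ifs <;> norm_num

theorem WG_apply (G : ℕ → Bool) (x y : I) : (WG G).toFun x y = if Wrel G x y then 1 else 0 := rfl

theorem weight_WG (G : ℕ → Bool) {n : ℕ} (H : SimpleGraph (Fin n)) (x : Fin n → I) :
    weight (WG G) H x = if (∀ i j, i ≠ j → (H.Adj i j ↔ Wrel G (x i) (x j))) then 1 else 0 := by
  by_cases h : ∀ i j, i ≠ j → (H.Adj i j ↔ Wrel G (x i) (x j))
  · rw [if_pos h]
    apply Finset.prod_eq_one
    intro p hp
    rw [Finset.mem_filter] at hp
    have h1 := h p.1 p.2 hp.2.ne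
    by_cases h2 : H.Adj p.1 p.2
    · rw [if_pos h2, WG_apply, if_pos (h1.1 h2)]
    · rw [if_neg h2, WG_apply, if_neg fun h3 => h2 (h1.2 h3)]
      norm_num
  · rw [if_neg h]
    push Not at h
    obtain ⟨i, j, hij, h⟩ := h
    have hW : ∀ a b, (H.Adj a b ∧ ¬ Wrel G (x a) (x b) ∨ ¬ H.Adj a b ∧ Wrel G (x a) (x b)) →
        a < b → weight (WG G) H x = 0 := by
      intro a b hab hlt
      apply Finset.prod_eq_zero (i := (a, b))
      · rw [Finset.mem_filter]; exact ⟨Finset.mem_univ _, hlt⟩
      · rcases hab with ⟨h1, h2⟩ | ⟨h1, h2⟩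
        · rw [if_pos h1, WG_apply, if_neg h2]
        · rw [if_neg h1, WG_apply, if_pos h2]; norm_num
    rcases lt_or_gt_of_ne hij with hlt | hlt
    · exact hW i j h hlt
    · apply hW j i _ hlt
      rcases h with ⟨h1, h2⟩ | ⟨h1, h2⟩
      · left; exact ⟨h1.symm, fun h3 => h2 (Wrel_symm h3)⟩
      · right; exact ⟨fun h3 => h1 h3.symm, Wrel_symm h2⟩

theorem dens_one (W : Graphon) (n : ℕ) (H : SimpleGraph (Fin n)) :
    dens W (fun _ => 1) n H = ∫ x : Fin n → I, weight W H x := by
  simp [dens]

theorem marg {k n : ℕ} (e : Fin k → Fin n) (he : Function.Injective e) :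
    MeasurePreserving (fun (x : Fin n → I) a => x (e a)) volume volume := by
  refine ⟨measurable_pi_lambda _ fun a => measurable_pi_apply _, ?_⟩
  have h1 : ProbabilityTheory.iIndepFun (fun (i : Fin n) (x : Fin n → I) => x i)
      (Measure.pi fun _ : Fin n => (volume : Measure I)) :=
    ProbabilityTheory.iIndepFun_pi (X := fun _ => id) fun i => aemeasurable_id
  have h2 := h1.precomp he
  rw [ProbabilityTheory.iIndepFun_iff_map_fun_eq_pi_map
    (fun i => (measurable_pi_apply _).aemeasurable)] at h2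
  show Measure.map _ (Measure.pi fun _ : Fin n => (volume : Measure I)) = Measure.pi _
  refine h2.trans ?_
  congr 1
  ext1 i
  exact (measurePreserving_eval (fun _ : Fin n => (volume : Measure I)) (e i)).map_eq

/-! ### Sampling -/

/-- the pairs `i < j` -/
def prs (n : ℕ) : Finset (Fin n × Fin n) :=
  Finset.univ.filter (fun p : Fin n × Fin n => p.1 < p.2)

theorem mem_prs {n : ℕ} {p : Fin n × Fin n} : p ∈ prs n ↔ p.1 < p.2 := by
  rw [prs, Finset.mem_filter]; exact ⟨fun h => h.2, fun h => ⟨Finset.mem_univ _, h⟩⟩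

theorem sum_weight (W : Graphon) {n : ℕ} (x : Fin n → I) :
    ∑ Γ : SimpleGraph (Fin n), weight W Γ x = 1 := by
  have h1 : ∏ p ∈ prs n, (W.toFun (x p.1) (x p.2) + (1 - W.toFun (x p.1) (x p.2))) = 1 :=
    Finset.prod_eq_one fun p _ => by ring
  rw [Finset.prod_add] at h1
  rw [← h1]
  have key : ∀ (Γ' : SimpleGraph (Fin n)) p, p ∈ (prs n).filter (fun p => Γ'.Adj p.1 p.2) ↔
      p ∈ prs n ∧ Γ'.Adj p.1 p.2 := fun Γ' p => Finset.mem_filter
  apply Finset.sum_bij' (fun Γ _ => (prs n).filter fun p => Γ.Adj p.1 p.2)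
    (fun t _ => SimpleGraph.fromRel fun a b => (a, b) ∈ t ∧ a < b)
  · intro Γ _
    rw [Finset.mem_powerset]
    exact Finset.filter_subset _ _
  · intro t _; exact Finset.mem_univ _
  · intro Γ _
    ext a b
    rw [SimpleGraph.fromRel_adj, Finset.mem_filter, Finset.mem_filter, mem_prs, mem_prs]
    constructor
    · rintro ⟨_, h | h⟩
      · exact h.1.2
      · exact h.1.2.symm
    · intro h
      refine ⟨h.ne, ?_⟩
      rcases lt_or_gt_of_ne h.ne with hlt | hlt
      · left; exact ⟨⟨hlt, h⟩, hlt⟩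
      · right; exact ⟨⟨hlt, h.symm⟩, hlt⟩
  · intro t ht
    rw [Finset.mem_powerset] at ht
    ext p
    refine (key _ p).trans ?_
    rw [SimpleGraph.fromRel_adj]
    constructor
    · rintro ⟨hp, _, h | h⟩
      · exact h.1
      · rw [mem_prs] at hp; exact absurd h.2 (not_lt.2 hp.le)
    · intro h
      have h2 := ht h
      refine ⟨h2, ?_, Or.inl ⟨h, mem_prs.1 h2⟩⟩
      rw [mem_prs] at h2; exact h2.ne
  · intro Γ _
    show ∏ p ∈ prs n, _ = _
    rw [Finset.prod_ite]
    congr 1
    apply Finset.prod_congr _ fun _ _ => rfl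
    ext p
    rw [Finset.mem_filter, Finset.mem_sdiff, Finset.mem_filter]
    tauto

theorem weight_comp_le (W : Graphon) {k n : ℕ} (H : SimpleGraph (Fin k))
    (Γ : SimpleGraph (Fin n)) (e : Fin k → Fin n) (he : Function.Injective e)
    (hadj : ∀ a b, a ≠ b → (H.Adj a b ↔ Γ.Adj (e a) (e b))) (x : Fin n → I) :
    weight W Γ x ≤ weight W H (fun a => x (e a)) := by
  let F : Fin n × Fin n → ℝ := fun p =>
    if Γ.Adj p.1 p.2 then W.toFun (x p.1) (x p.2) else 1 - W.toFun (x p.1) (x p.2)
  have hF : ∀ p, 0 ≤ F p ∧ F p ≤ 1 := weight_term_bounds W Γ x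
  have hFs : ∀ a b, F (a, b) = F (b, a) := by
    intro a b
    show (if Γ.Adj a b then W.toFun (x a) (x b) else 1 - W.toFun (x a) (x b)) =
      (if Γ.Adj b a then W.toFun (x b) (x a) else 1 - W.toFun (x b) (x a))
    rw [W.symm (x b) (x a), Γ.adj_comm b a]
  let g : Fin k × Fin k → Fin n × Fin n := fun p =>
    if e p.1 < e p.2 then (e p.1, e p.2) else (e p.2, e p.1)
  have hg1 : ∀ p ∈ prs k, g p ∈ prs n := by
    intro p hp
    rw [mem_prs] at hp ⊢
    by_cases h : e p.1 < e p.2
    · simp only [g, if_pos h]; exact h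
    · simp only [g, if_neg h]
      exact lt_of_le_of_ne (not_lt.1 h) fun h' => hp.ne' (he h')
  have hg2 : Set.InjOn g (prs k : Set (Fin k × Fin k)) := by
    intro p hp q hq hpq
    rw [Finset.mem_coe, mem_prs] at hp hq
    by_cases h : e p.1 < e p.2 <;> by_cases h' : e q.1 < e q.2
    · simp only [g, if_pos h, if_pos h', Prod.mk.injEq] at hpq
      exact Prod.ext (he hpq.1) (he hpq.2)
    · simp only [g, if_pos h, if_neg h', Prod.mk.injEq] at hpq
      have e1 := he hpq.1
      have e2 := he hpq.2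
      rw [e1, e2] at hp
      exact absurd hp (not_lt.2 hq.le)
    · simp only [g, if_neg h, if_pos h', Prod.mk.injEq] at hpq
      have e1 := he hpq.1
      have e2 := he hpq.2
      rw [e1, e2] at hp
      exact absurd hp (not_lt.2 hq.le)
    · simp only [g, if_neg h, if_neg h', Prod.mk.injEq] at hpq
      exact Prod.ext (he hpq.2) (he hpq.1)
  have h1 : weight W H (fun a => x (e a)) = ∏ q ∈ (prs k).image g, F q := by
    rw [Finset.prod_image hg2]
    apply Finset.prod_congr rfl
    intro p hp
    have hp' : p.1 < p.2 := by rw [Finset.mem_filter] at hp; exact hp.2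
    have h2 : F (g p) = F (e p.1, e p.2) := by
      by_cases h : e p.1 < e p.2
      · simp only [g, if_pos h]
      · simp only [g, if_neg h]; exact hFs _ _
    rw [h2]
    show _ = if Γ.Adj (e p.1) (e p.2) then _ else _
    by_cases h : H.Adj p.1 p.2
    · rw [if_pos h, if_pos ((hadj _ _ hp'.ne).1 h)]
    · rw [if_neg h, if_neg fun h3 => h ((hadj _ _ hp'.ne).2 h3)]
  have hsub : (prs k).image g ⊆ prs n := by
    intro q hq
    rw [Finset.mem_image] at hq
    obtain ⟨p, hp, rfl⟩ := hq
    exact hg1 p hp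
  rw [h1]
  show ∏ p ∈ prs n, F p ≤ _
  rw [← Finset.prod_sdiff hsub]
  calc (∏ p ∈ prs n \ (prs k).image g, F p) * ∏ p ∈ (prs k).image g, F p
      ≤ 1 * ∏ p ∈ (prs k).image g, F p := by
        apply mul_le_mul_of_nonneg_right
        · exact Finset.prod_le_one (fun p _ => (hF p).1) fun p _ => (hF p).2
        · exact Finset.prod_nonneg fun p _ => (hF p).1
    _ = _ := one_mul _

/-- `H` embeds into `Γ` inside `S` -/
def EmbF {k n : ℕ} (H : SimpleGraph (Fin k)) (Γ : SimpleGraph (Fin n)) (S : Finset (Fin n)) :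
    Prop :=
  ∃ e : Fin k → Fin n, Function.Injective e ∧ (∀ a, e a ∈ S) ∧
    ∀ a b, a ≠ b → (H.Adj a b ↔ Γ.Adj (e a) (e b))

theorem sampling (W : Graphon) (f : I → ℝ) (hf : Measurable f) (hf01 : ∀ t, 0 ≤ f t ∧ f t ≤ 1)
    {k : ℕ} (H : SimpleGraph (Fin k)) (hz : ∫ x : Fin k → I, (∏ i, f (x i)) * weight W H x = 0)
    (n : ℕ) (h : SimpleGraph (Fin n) → ℝ)
    (hh : ∀ Γ, ∀ S : Finset (Fin n), ¬ EmbF H Γ S → (S.card : ℝ) ≤ h Γ) :
    n * ∫ t, f t ≤ ∑ Γ : SimpleGraph (Fin n), h Γ * dens W (fun _ => 1) n Γ := by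
  have hmf : ∀ (m : ℕ) (i : Fin m), Measurable fun x : Fin m → I => f (x i) := fun m i =>
    hf.comp (measurable_pi_apply i)
  have hS0 : ∀ x : Fin n → I, 0 ≤ ∑ i, f (x i) := fun x => Finset.sum_nonneg fun i _ =>
    (hf01 _).1
  have hS1 : ∀ x : Fin n → I, ∑ i, f (x i) ≤ n := by
    intro x
    calc ∑ i, f (x i) ≤ ∑ _i : Fin n, (1:ℝ) := Finset.sum_le_sum fun i _ => (hf01 _).2
      _ = n := by simp
  have hmS : Measurable fun x : Fin n → I => ∑ i, f (x i) :=
    Finset.measurable_sum _ fun i _ => hmf n i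
  -- the integrals which vanish
  have hzero : ∀ (Γ : SimpleGraph (Fin n)) (e : Fin k → Fin n), Function.Injective e →
      (∀ a b, a ≠ b → (H.Adj a b ↔ Γ.Adj (e a) (e b))) →
      ∀ᵐ x : Fin n → I, (∏ a, f (x (e a))) * weight W Γ x = 0 := by
    intro Γ e he hadj
    have hm : Measurable fun x : Fin n → I => (∏ a, f (x (e a))) * weight W Γ x :=
      (Finset.measurable_prod _ fun a _ => hmf n (e a)).mul (measurable_weight W Γ)
    have hp0 : ∀ x : Fin n → I, 0 ≤ ∏ a, f (x (e a)) := fun x =>
      Finset.prod_nonneg fun a _ => (hf01 _).1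
    have hp1 : ∀ x : Fin n → I, ∏ a, f (x (e a)) ≤ 1 := fun x =>
      Finset.prod_le_one (fun a _ => (hf01 _).1) fun a _ => (hf01 _).2
    have hnn : ∀ x : Fin n → I, 0 ≤ (∏ a, f (x (e a))) * weight W Γ x := fun x =>
      mul_nonneg (hp0 x) (weight_nonneg W Γ x)
    have hle : ∀ x : Fin n → I, (∏ a, f (x (e a))) * weight W Γ x ≤
        (∏ a, f (x (e a))) * weight W H (fun a => x (e a)) := fun x =>
      mul_le_mul_of_nonneg_left (weight_comp_le W H Γ e he hadj x) (hp0 x)
    have hi1 : Integrable fun x : Fin n → I => (∏ a, f (x (e a))) * weight W Γ x := by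
      apply integrable_of_bdd hm 1
      intro x
      rw [abs_of_nonneg (hnn x)]
      exact mul_le_one₀ (hp1 x) (weight_nonneg W Γ x) (weight_le_one W Γ x)
    have hm2 : Measurable fun y : Fin k → I => (∏ a, f (y a)) * weight W H y :=
      (Finset.measurable_prod _ fun a _ => hmf k a).mul (measurable_weight W H)
    have hi2 : Integrable fun x : Fin n → I =>
        (∏ a, f (x (e a))) * weight W H (fun a => x (e a)) := by
      apply integrable_of_bdd (hm2.comp (marg e he).measurable) 1
      intro x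
      show |(∏ a, f (x (e a))) * weight W H (fun a => x (e a))| ≤ 1
      rw [abs_of_nonneg (mul_nonneg (hp0 x) (weight_nonneg W H _))]
      exact mul_le_one₀ (hp1 x) (weight_nonneg W H _) (weight_le_one W H _)
    have hint : ∫ x : Fin n → I, (∏ a, f (x (e a))) * weight W Γ x = 0 := by
      apply le_antisymm
      · refine (integral_mono hi1 hi2 hle).trans (le_of_eq ?_)
        rw [← hz]
        have := (marg e he).map_eq
        rw [← this]
        rw [integral_map (marg e he).measurable.aemeasurable hm2.aestronglyMeasurable]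
      · exact integral_nonneg hnn
    exact (integral_eq_zero_iff_of_nonneg hnn hi1).1 hint
  have hae : ∀ Γ : SimpleGraph (Fin n), ∀ᵐ x : Fin n → I,
      (∑ i, f (x i)) * weight W Γ x ≤ h Γ * weight W Γ x := by
    intro Γ
    have hall : ∀ᵐ x : Fin n → I, ∀ e : Fin k → Fin n, Function.Injective e →
        (∀ a b, a ≠ b → (H.Adj a b ↔ Γ.Adj (e a) (e b))) →
        (∏ a, f (x (e a))) * weight W Γ x = 0 := by
      rw [ae_all_iff]
      intro e
      by_cases he : Function.Injective e ∧ ∀ a b, a ≠ b → (H.Adj a b ↔ Γ.Adj (e a) (e b))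
      · filter_upwards [hzero Γ e he.1 he.2] with x hx _ _
        exact hx
      · exact Filter.Eventually.of_forall fun x h1 h2 => absurd ⟨h1, h2⟩ he
    filter_upwards [hall] with x hx
    by_cases hw : weight W Γ x = 0
    · rw [hw, mul_zero, mul_zero]
    · apply mul_le_mul_of_nonneg_right _ (weight_nonneg W Γ x)
      let S : Finset (Fin n) := Finset.univ.filter fun i => f (x i) ≠ 0
      have hSn : ¬ EmbF H Γ S := by
        rintro ⟨e, h1, h2, h3⟩
        have h4 := hx e h1 h3
        rcases mul_eq_zero.1 h4 with h5 | h5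
        · rw [Finset.prod_eq_zero_iff] at h5
          obtain ⟨a, _, ha⟩ := h5
          have := h2 a
          rw [Finset.mem_filter] at this
          exact this.2 ha
        · exact hw h5
      refine le_trans ?_ (hh Γ S hSn)
      calc ∑ i, f (x i) = ∑ i ∈ S, f (x i) := by
            symm
            apply Finset.sum_subset (Finset.subset_univ _)
            intro i _ hi
            by_contra hne
            exact hi (Finset.mem_filter.2 ⟨Finset.mem_univ _, hne⟩)
        _ ≤ ∑ _i ∈ S, (1:ℝ) := Finset.sum_le_sum fun i _ => (hf01 _).2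
        _ = S.card := by simp
  have hi3 : ∀ Γ : SimpleGraph (Fin n),
      Integrable fun x : Fin n → I => (∑ i, f (x i)) * weight W Γ x := by
    intro Γ
    apply integrable_of_bdd (hmS.mul (measurable_weight W Γ)) n
    intro x
    show |(∑ i, f (x i)) * weight W Γ x| ≤ n
    rw [abs_of_nonneg (mul_nonneg (hS0 x) (weight_nonneg W Γ x))]
    calc (∑ i, f (x i)) * weight W Γ x ≤ n * 1 :=
          mul_le_mul (hS1 x) (weight_le_one W Γ x) (weight_nonneg W Γ x) (Nat.cast_nonneg n)
      _ = n := mul_one _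
  have hiw : ∀ Γ : SimpleGraph (Fin n), Integrable fun x : Fin n → I => weight W Γ x := by
    intro Γ
    apply integrable_of_bdd (measurable_weight W Γ) 1
    intro x
    rw [abs_of_nonneg (weight_nonneg W Γ x)]; exact weight_le_one W Γ x
  have e1 : ∫ x : Fin n → I, ∑ i, f (x i) = n * ∫ t, f t := by
    rw [integral_finsetSum]
    · have : ∀ i : Fin n, ∫ x : Fin n → I, f (x i) = ∫ t, f t := by
        intro i
        have hmp := measurePreserving_eval (fun _ : Fin n => (volume : Measure I)) i
        rw [← hmp.map_eq, integral_map hmp.measurable.aemeasurable hf.aestronglyMeasurable]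
        rfl
      rw [Finset.sum_congr rfl fun i _ => this i]
      simp
    · intro i _
      apply integrable_of_bdd (hmf n i) 1
      intro x; rw [abs_of_nonneg (hf01 _).1]; exact (hf01 _).2
  rw [← e1]
  calc ∫ x : Fin n → I, ∑ i, f (x i)
      = ∫ x : Fin n → I, ∑ Γ : SimpleGraph (Fin n), (∑ i, f (x i)) * weight W Γ x := by
        congr 1
        ext x
        rw [← Finset.mul_sum, sum_weight, mul_one]
    _ = ∑ Γ : SimpleGraph (Fin n), ∫ x : Fin n → I, (∑ i, f (x i)) * weight W Γ x :=
        integral_finsetSum _ fun Γ _ => hi3 Γ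
    _ ≤ ∑ Γ : SimpleGraph (Fin n), ∫ x : Fin n → I, h Γ * weight W Γ x :=
        Finset.sum_le_sum fun Γ _ => integral_mono_ae (hi3 Γ) ((hiw Γ).const_mul _) (hae Γ)
    _ = ∑ Γ : SimpleGraph (Fin n), h Γ * dens W (fun _ => 1) n Γ := by
        apply Finset.sum_congr rfl
        intro Γ _
        rw [integral_const_mul, dens_one]

/-! ### Points with the same digits -/

theorem volume_close (a : I) (δ : ℝ) :
    (volume : Measure I) {b : I | |(a : ℝ) - b| ≤ δ} ≤ ENNReal.ofReal (2 * δ) := by
  rw [unitInterval.volume_apply]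
  calc (volume : Measure ℝ) (Subtype.val '' {b : I | |(a : ℝ) - b| ≤ δ})
      ≤ (volume : Measure ℝ) (Set.Icc ((a : ℝ) - δ) (a + δ)) := by
        apply measure_mono
        rintro _ ⟨b, hb, rfl⟩
        have hb' : |(a : ℝ) - b| ≤ δ := hb
        rw [abs_le] at hb'
        constructor <;> linarith
    _ = ENNReal.ofReal (2 * δ) := by
        rw [Real.volume_Icc]; congr 1; ring

theorem volume_pair_close {n : ℕ} (i j : Fin n) (hij : i ≠ j) (δ : ℝ) :
    (volume : Measure (Fin n → I)) {x | |(x i : ℝ) - x j| ≤ δ} ≤ ENNReal.ofReal (2 * δ) := by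
  have hme : MeasurableSet {q : I × I | |(q.1 : ℝ) - q.2| ≤ δ} := by
    apply measurableSet_le _ measurable_const
    exact ((measurable_subtype_coe.comp measurable_fst).sub
      (measurable_subtype_coe.comp measurable_snd)).abs
  have he : Function.Injective (![i, j] : Fin 2 → Fin n) := by
    intro a b hab
    fin_cases a <;> fin_cases b
    · rfl
    · exact absurd hab hij
    · exact absurd hab.symm hij
    · rfl
  have h1 := (volume_preserving_finTwoArrow I).comp (marg (![i, j] : Fin 2 → Fin n) he)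
  have h2 := h1.measure_preimage hme.nullMeasurableSet
  have h3 : ((MeasurableEquiv.finTwoArrow : (Fin 2 → I) ≃ᵐ I × I) ∘
      fun (x : Fin n → I) a => x ((![i, j] : Fin 2 → Fin n) a)) ⁻¹'
      {q : I × I | |(q.1 : ℝ) - q.2| ≤ δ} = {x | |(x i : ℝ) - x j| ≤ δ} := rfl
  rw [h3] at h2
  rw [h2]
  show ((volume : Measure I).prod volume) _ ≤ _
  rw [Measure.prod_apply hme]
  calc ∫⁻ a : I, (volume : Measure I) (Prod.mk a ⁻¹' {q : I × I | |(q.1 : ℝ) - q.2| ≤ δ})
      ≤ ∫⁻ _a : I, ENNReal.ofReal (2 * δ) := lintegral_mono fun a => volume_close a δ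
    _ = ENNReal.ofReal (2 * δ) := by simp

theorem measurableSet_digs_eq {n : ℕ} (L : ℕ) (i j : Fin n) :
    MeasurableSet {x : Fin n → I | digs L (x i) = digs L (x j)} := by
  have h : {x : Fin n → I | digs L (x i) = digs L (x j)} =
      ⋂ k ∈ Finset.range L, {x : Fin n → I | dig k (x i) = dig k (x j)} := by
    ext x
    simp only [Set.mem_iInter, Finset.mem_range]
    exact digs_eq_iff L _ _
  rw [h]
  apply Finset.measurableSet_biInter
  intro k _
  exact measurableSet_eq_fun ((measurable_dig k).comp (measurable_subtype_coe.comp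
    (measurable_pi_apply i))) ((measurable_dig k).comp (measurable_subtype_coe.comp
    (measurable_pi_apply j)))

theorem volume_digs_eq {n : ℕ} (L : ℕ) (i j : Fin n) (hij : i ≠ j) :
    (volume : Measure (Fin n → I)).real {x | digs L (x i) = digs L (x j)} ≤ 2 * (1 / 2) ^ L := by
  apply ENNReal.toReal_le_of_le_ofReal (by positivity)
  refine le_trans (measure_mono ?_) (volume_pair_close i j hij ((1 / 2) ^ L))
  intro x hx
  exact digs_close L _ _ (x i).2.1 (x i).2.2 (x j).2.1 (x j).2.2 hx

/-- the number of pairs of points with the same digits -/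
noncomputable def coll (L : ℕ) {n : ℕ} (x : Fin n → I) : ℝ :=
  ∑ i, ∑ j, if digs L (x i) = digs L (x j) then (1:ℝ) else 0

theorem measurable_coll (L : ℕ) {n : ℕ} : Measurable (coll L : (Fin n → I) → ℝ) := by
  unfold coll
  apply Finset.measurable_sum; intro i _
  apply Finset.measurable_sum; intro j _
  exact Measurable.ite (measurableSet_digs_eq L i j) measurable_const measurable_const

theorem coll_nonneg (L : ℕ) {n : ℕ} (x : Fin n → I) : 0 ≤ coll L x := by
  apply Finset.sum_nonneg; intro i _
  apply Finset.sum_nonneg; intro j _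
  split_ifs <;> norm_num

theorem coll_le (L : ℕ) {n : ℕ} (x : Fin n → I) : coll L x ≤ n * n := by
  calc coll L x ≤ ∑ _i : Fin n, ∑ _j : Fin n, (1:ℝ) := by
        apply Finset.sum_le_sum; intro i _
        apply Finset.sum_le_sum; intro j _
        split_ifs <;> norm_num
    _ = n * n := by simp

theorem integral_coll (L : ℕ) {n : ℕ} :
    ∫ x : Fin n → I, coll L x ≤ n + n * n * (2 * (1 / 2) ^ L) := by
  have hint : ∀ i j : Fin n, Integrable fun x : Fin n → I =>
      if digs L (x i) = digs L (x j) then (1:ℝ) else 0 := by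
    intro i j
    apply integrable_of_bdd (Measurable.ite (measurableSet_digs_eq L i j) measurable_const
      measurable_const) 1
    intro x
    split_ifs <;> norm_num
  have h1 : ∀ i j : Fin n, ∫ x : Fin n → I,
      (if digs L (x i) = digs L (x j) then (1:ℝ) else 0) ≤
      (if i = j then (1:ℝ) else 0) + 2 * (1 / 2) ^ L := by
    intro i j
    have e1 : ∫ x : Fin n → I, (if digs L (x i) = digs L (x j) then (1:ℝ) else 0) =
        (volume : Measure (Fin n → I)).real {x | digs L (x i) = digs L (x j)} := by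
      have : (fun x : Fin n → I => if digs L (x i) = digs L (x j) then (1:ℝ) else 0) =
          Set.indicator {x : Fin n → I | digs L (x i) = digs L (x j)} 1 := by
        ext x
        by_cases hx : digs L (x i) = digs L (x j)
        · rw [if_pos hx, Set.indicator_of_mem (by exact hx)]; rfl
        · rw [if_neg hx, Set.indicator_of_notMem (by exact hx)]
      rw [this, integral_indicator_one (measurableSet_digs_eq L i j)]
    rw [e1]
    by_cases hij : i = j
    · rw [if_pos hij]
      have : (volume : Measure (Fin n → I)).real {x | digs L (x i) = digs L (x j)} ≤ 1 :=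
        measureReal_le_one
      have h2 : (0:ℝ) ≤ 2 * (1 / 2) ^ L := by positivity
      linarith
    · rw [if_neg hij, zero_add]
      exact volume_digs_eq L i j hij
  unfold coll
  rw [integral_finsetSum]
  · calc ∑ i : Fin n, ∫ x : Fin n → I, ∑ j, (if digs L (x i) = digs L (x j) then (1:ℝ) else 0)
        = ∑ i : Fin n, ∑ j : Fin n, ∫ x : Fin n → I,
          (if digs L (x i) = digs L (x j) then (1:ℝ) else 0) := by
          apply Finset.sum_congr rfl
          intro i _
          rw [integral_finsetSum _ fun j _ => hint i j]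
      _ ≤ ∑ i : Fin n, ∑ j : Fin n, ((if i = j then (1:ℝ) else 0) + 2 * (1 / 2) ^ L) := by
          apply Finset.sum_le_sum; intro i _
          apply Finset.sum_le_sum; intro j _
          exact h1 i j
      _ = n + n * n * (2 * (1 / 2) ^ L) := by
          simp only [Finset.sum_add_distrib, Finset.sum_ite_eq, Finset.mem_univ, if_true,
            Finset.sum_const, Finset.card_univ, Fintype.card_fin, nsmul_eq_mul, mul_one]
          ring
  · intro i _
    exact integrable_finsetSum _ fun j _ => hint i j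

theorem card_le_coll (L : ℕ) {n : ℕ} (x : Fin n → I) (S : Finset (Fin n)) (r : ℝ) (hr : 0 < r) :
    (S.card : ℝ) ≤ r * (S.image fun i => digs L (x i)).card / 2 + coll L x / (2 * r) := by
  let N : Cube L → ℝ := fun v => ∑ i, if digs L (x i) = v then (1:ℝ) else 0
  have h1 : (S.card : ℝ) ≤ ∑ v ∈ S.image (fun i => digs L (x i)), N v := by
    calc (S.card : ℝ) = ∑ _i ∈ S, (1:ℝ) := by simp
      _ = ∑ i ∈ S, ∑ v ∈ S.image (fun i => digs L (x i)), if digs L (x i) = v then (1:ℝ) else 0 := by
          apply Finset.sum_congr rfl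
          intro i hi
          rw [Finset.sum_ite_eq, if_pos (Finset.mem_image_of_mem _ hi)]
      _ = ∑ v ∈ S.image (fun i => digs L (x i)), ∑ i ∈ S, if digs L (x i) = v then (1:ℝ) else 0 :=
          Finset.sum_comm
      _ ≤ _ := by
          apply Finset.sum_le_sum
          intro v _
          apply Finset.sum_le_sum_of_subset_of_nonneg (Finset.subset_univ _)
          intro i _ _
          split_ifs <;> norm_num
  have h2 : coll L x = ∑ v : Cube L, N v ^ 2 := by
    have e1 : ∀ v : Cube L, N v ^ 2 = ∑ i, ∑ j, (if digs L (x i) = v then (1:ℝ) else 0) *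
        (if digs L (x j) = v then (1:ℝ) else 0) := by
      intro v
      rw [pow_two, Finset.sum_mul_sum]
    rw [Finset.sum_congr rfl fun v _ => e1 v, Finset.sum_comm]
    unfold coll
    apply Finset.sum_congr rfl; intro i _
    rw [Finset.sum_comm]
    apply Finset.sum_congr rfl; intro j _
    by_cases h : digs L (x i) = digs L (x j)
    · rw [if_pos h, Finset.sum_eq_single (digs L (x i))]
      · rw [if_pos rfl, if_pos h.symm, one_mul]
      · intro v _ hv
        rw [if_neg hv.symm, zero_mul]
      · intro h'; exact absurd (Finset.mem_univ _) h'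
    · rw [if_neg h]
      symm
      apply Finset.sum_eq_zero
      intro v _
      by_cases h' : digs L (x i) = v
      · rw [if_neg (c := digs L (x j) = v) (fun h'' => h (h'.trans h''.symm)), mul_zero]
      · rw [if_neg h', zero_mul]
  have h3 : ∀ v, N v ≤ r / 2 + N v ^ 2 / (2 * r) := by
    intro v
    have : 0 ≤ (N v - r) ^ 2 / (2 * r) := by positivity
    have e : (N v - r) ^ 2 / (2 * r) = N v ^ 2 / (2 * r) - N v + r / 2 := by
      field_simp; ring
    linarith
  have h4 : ∑ v ∈ S.image (fun i => digs L (x i)), N v ^ 2 ≤ coll L x := by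
    rw [h2]
    apply Finset.sum_le_sum_of_subset_of_nonneg (Finset.subset_univ _)
    intro v _ _; positivity
  calc (S.card : ℝ) ≤ ∑ v ∈ S.image (fun i => digs L (x i)), N v := h1
    _ ≤ ∑ v ∈ S.image (fun i => digs L (x i)), (r / 2 + N v ^ 2 / (2 * r)) :=
        Finset.sum_le_sum fun v _ => h3 v
    _ = r * (S.image fun i => digs L (x i)).card / 2 +
        (∑ v ∈ S.image (fun i => digs L (x i)), N v ^ 2) / (2 * r) := by
        have e5 : ∑ v ∈ S.image (fun i => digs L (x i)), N v ^ 2 / (2 * r) =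
            (∑ v ∈ S.image (fun i => digs L (x i)), N v ^ 2) / (2 * r) := by
          rw [Finset.sum_div]
        rw [Finset.sum_add_distrib, e5, Finset.sum_const, nsmul_eq_mul]
        ring
    _ ≤ _ := by
        have : (∑ v ∈ S.image (fun i => digs L (x i)), N v ^ 2) / (2 * r) ≤ coll L x / (2 * r) :=
          div_le_div_of_nonneg_right h4 (by positivity)
        linarith

/-! ### Every cograph has positive density in every sub-object -/

theorem pos_dens (G : ℕ → Bool) (hG : ∀ c m, ∃ i, m ≤ i ∧ G i = c) (W : Graphon)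
    (hW : ∀ n (Γ : SimpleGraph (Fin n)), dens W (fun _ => 1) n Γ = dens (WG G) (fun _ => 1) n Γ)
    (f : I → ℝ) (hf : Measurable f) (hf01 : ∀ t, 0 ≤ f t ∧ f t ≤ 1) (hpos : 0 < ∫ t, f t)
    {k : ℕ} (H : SimpleGraph (Fin k)) (t : Cotree) (e₀ : Fin k ≃ t.V)
    (hH : ∀ i j, H.Adj i j ↔ t.adj (e₀ i) (e₀ j)) :
    0 < ∫ x : Fin k → I, (∏ i, f (x i)) * weight W H x := by
  by_contra hneg
  have hge : 0 ≤ ∫ x : Fin k → I, (∏ i, f (x i)) * weight W H x :=
    integral_nonneg fun x => mul_nonneg (Finset.prod_nonneg fun i _ => (hf01 _).1)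
      (weight_nonneg W H x)
  have hz := le_antisymm (not_lt.1 hneg) hge
  set c := ∫ t, f t with hc
  have hr : (0:ℝ) < 3 / c := by positivity
  obtain ⟨L, hL⟩ := dense_emb t G hG (c ^ 2 / 6) (by positivity)
  have hL' := hL L le_rfl
  let n : ℕ := 2 ^ L
  let h : SimpleGraph (Fin n) → ℝ := fun Γ =>
    (((Finset.univ.filter fun S : Finset (Fin n) => ¬ EmbF H Γ S).sup Finset.card : ℕ) : ℝ)
  have hh : ∀ Γ, ∀ S : Finset (Fin n), ¬ EmbF H Γ S → (S.card : ℝ) ≤ h Γ := by
    intro Γ S hS
    have h1 : S.card ≤ (Finset.univ.filter fun S : Finset (Fin n) => ¬ EmbF H Γ S).sup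
        Finset.card := Finset.le_sup (f := Finset.card)
          (Finset.mem_filter.2 ⟨Finset.mem_univ _, hS⟩)
    show (S.card : ℝ) ≤ (((Finset.univ.filter fun S : Finset (Fin n) => ¬ EmbF H Γ S).sup
      Finset.card : ℕ) : ℝ)
    exact_mod_cast h1
  have h1 := sampling W f hf hf01 H hz n h hh
  let u : (Fin n → I) → ℝ := fun x => (3 / c) * ((c ^ 2 / 6) * 2 ^ L) / 2 + coll L x / (2 * (3 / c))
  have hu0 : ∀ x, 0 ≤ u x := by
    intro x
    have := coll_nonneg L x
    show 0 ≤ (3 / c) * ((c ^ 2 / 6) * 2 ^ L) / 2 + coll L x / (2 * (3 / c))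
    positivity
  have hS : ∀ (Γ : SimpleGraph (Fin n)) (x : Fin n → I),
      (∀ i j, i ≠ j → (Γ.Adj i j ↔ Wrel G (x i) (x j))) → ∀ S : Finset (Fin n),
      ¬ EmbF H Γ S → (S.card : ℝ) ≤ u x := by
    intro Γ x hx S hS
    have hT : ¬ Emb t L G (S.image fun i => digs L (x i)) := by
      rintro ⟨ι, i1, i2, i3⟩
      apply hS
      have hrep : ∀ v : t.V, ∃ i ∈ S, digs L (x i) = ι v := by
        intro v
        have := i2 v
        rw [Finset.mem_image] at this
        exact this
      choose r hr1 hr2 using hrep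
      have hrinj : Function.Injective r := by
        intro v w hvw
        apply i1
        rw [← hr2 v, ← hr2 w, hvw]
      refine ⟨fun a => r (e₀ a), hrinj.comp e₀.injective, fun a => hr1 _, ?_⟩
      intro a b hab
      have hne : e₀ a ≠ e₀ b := fun h' => hab (e₀.injective h')
      rw [hH a b, i3 _ _ hne, hx _ _ (fun h' => hne (hrinj h')), Wrel_iff_cadj L, hr2, hr2]
      rw [hr2, hr2]
      exact fun h' => hne (i1 h')
    have h2 := hL' _ hT
    have h3 := card_le_coll L x S (3 / c) hr
    refine h3.trans ?_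
    show _ ≤ (3 / c) * ((c ^ 2 / 6) * 2 ^ L) / 2 + coll L x / (2 * (3 / c))
    have h4 : (3 / c) * ((S.image fun i => digs L (x i)).card : ℝ) ≤
        (3 / c) * ((c ^ 2 / 6) * 2 ^ L) := mul_le_mul_of_nonneg_left h2 hr.le
    linarith
  have hle : ∀ (Γ : SimpleGraph (Fin n)) (x : Fin n → I),
      h Γ * weight (WG G) Γ x ≤ u x * weight (WG G) Γ x := by
    intro Γ x
    rw [weight_WG]
    by_cases hx : ∀ i j, i ≠ j → (Γ.Adj i j ↔ Wrel G (x i) (x j))
    · rw [if_pos hx, mul_one, mul_one]
      have hex : ∃ S : Finset (Fin n), ¬ EmbF H Γ S ∧ h Γ = S.card ∨ h Γ = 0 := by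
        by_cases hne : (Finset.univ.filter fun S : Finset (Fin n) => ¬ EmbF H Γ S).Nonempty
        · obtain ⟨S, hS1, hS2⟩ := Finset.exists_mem_eq_sup _ hne Finset.card
          refine ⟨S, Or.inl ⟨(Finset.mem_filter.1 hS1).2, ?_⟩⟩
          show ((_ : ℕ) : ℝ) = _
          rw [hS2]
        · refine ⟨∅, Or.inr ?_⟩
          rw [Finset.not_nonempty_iff_eq_empty] at hne
          show ((_ : ℕ) : ℝ) = _
          rw [hne]; simp
      obtain ⟨S, ⟨hS1, hS2⟩ | hS1⟩ := hex
      · rw [hS2]; exact hS Γ x hx S hS1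
      · rw [hS1]; exact hu0 x
    · rw [if_neg hx, mul_zero, mul_zero]
  have hmu : Measurable u := measurable_const.add ((measurable_coll L).div_const _)
  have hub : ∀ x, u x ≤ (3 / c) * ((c ^ 2 / 6) * 2 ^ L) / 2 + n * n / (2 * (3 / c)) := by
    intro x
    have := coll_le L x
    have h5 : coll L x / (2 * (3 / c)) ≤ n * n / (2 * (3 / c)) :=
      div_le_div_of_nonneg_right this (by positivity)
    show (3 / c) * ((c ^ 2 / 6) * 2 ^ L) / 2 + coll L x / (2 * (3 / c)) ≤ _
    linarith
  have hiu : Integrable u := by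
    apply integrable_of_bdd hmu _ fun x => ?_
    · exact (3 / c) * ((c ^ 2 / 6) * 2 ^ L) / 2 + n * n / (2 * (3 / c))
    · rw [abs_of_nonneg (hu0 x)]; exact hub x
  have hiuw : ∀ Γ : SimpleGraph (Fin n), Integrable fun x => u x * weight (WG G) Γ x := by
    intro Γ
    apply integrable_of_bdd (hmu.mul (measurable_weight (WG G) Γ)) _ fun x => ?_
    · exact (3 / c) * ((c ^ 2 / 6) * 2 ^ L) / 2 + n * n / (2 * (3 / c))
    · show |u x * weight (WG G) Γ x| ≤ _
      rw [abs_of_nonneg (mul_nonneg (hu0 x) (weight_nonneg _ Γ x))]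
      calc u x * weight (WG G) Γ x ≤ u x * 1 :=
            mul_le_mul_of_nonneg_left (weight_le_one _ Γ x) (hu0 x)
        _ = u x := mul_one _
        _ ≤ _ := hub x
  have hiw : ∀ Γ : SimpleGraph (Fin n), Integrable fun x : Fin n → I => weight (WG G) Γ x := by
    intro Γ
    apply integrable_of_bdd (measurable_weight _ Γ) 1
    intro x
    rw [abs_of_nonneg (weight_nonneg _ Γ x)]; exact weight_le_one _ Γ x
  have h2 : ∑ Γ : SimpleGraph (Fin n), h Γ * dens W (fun _ => 1) n Γ ≤ ∫ x, u x := by
    calc ∑ Γ : SimpleGraph (Fin n), h Γ * dens W (fun _ => 1) n Γ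
        = ∑ Γ : SimpleGraph (Fin n), ∫ x : Fin n → I, h Γ * weight (WG G) Γ x := by
          apply Finset.sum_congr rfl
          intro Γ _
          rw [hW, dens_one, integral_const_mul]
      _ ≤ ∑ Γ : SimpleGraph (Fin n), ∫ x : Fin n → I, u x * weight (WG G) Γ x :=
          Finset.sum_le_sum fun Γ _ => integral_mono ((hiw Γ).const_mul _) (hiuw Γ) (hle Γ)
      _ = ∫ x : Fin n → I, ∑ Γ : SimpleGraph (Fin n), u x * weight (WG G) Γ x :=
          (integral_finsetSum _ fun Γ _ => hiuw Γ).symm
      _ = ∫ x, u x := by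
          congr 1
          ext x
          rw [← Finset.mul_sum, sum_weight, mul_one]
  have hn : (n : ℝ) = 2 ^ L := by
    show ((2 ^ L : ℕ) : ℝ) = 2 ^ L
    push_cast; rfl
  have h3 : ∫ x, u x ≤ (3 / c) * ((c ^ 2 / 6) * 2 ^ L) / 2 + (3 * n) / (2 * (3 / c)) := by
    have e1 : ∫ x, u x = (3 / c) * ((c ^ 2 / 6) * 2 ^ L) / 2 +
        (∫ x : Fin n → I, coll L x) / (2 * (3 / c)) := by
      show ∫ x : Fin n → I, ((3 / c) * ((c ^ 2 / 6) * 2 ^ L) / 2 + coll L x / (2 * (3 / c))) = _
      have e6 : ∫ x : Fin n → I, coll L x / (2 * (3 / c)) =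
          (∫ x : Fin n → I, coll L x) / (2 * (3 / c)) := integral_div _ _
      rw [integral_add (integrable_const _), e6]
      · simp
      · apply Integrable.div_const
        apply integrable_of_bdd (measurable_coll L) (n * n)
        intro x; rw [abs_of_nonneg (coll_nonneg L x)]; exact coll_le L x
    rw [e1]
    have e2 : ∫ x : Fin n → I, coll L x ≤ 3 * n := by
      refine (integral_coll L).trans (le_of_eq ?_)
      have : (n:ℝ) * (1 / 2) ^ L = 1 := by
        rw [hn, ← mul_pow]; norm_num
      calc (n:ℝ) + n * n * (2 * (1 / 2) ^ L) = n + 2 * n * (n * (1 / 2) ^ L) := by ring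
        _ = 3 * n := by rw [this]; ring
    have e3 : (∫ x : Fin n → I, coll L x) / (2 * (3 / c)) ≤ (3 * n) / (2 * (3 / c)) :=
      div_le_div_of_nonneg_right e2 (by positivity)
    linarith
  have h4 := h1.trans (h2.trans h3)
  rw [hn] at h4
  have h5 : (3 / c) * ((c ^ 2 / 6) * 2 ^ L) / 2 + (3 * 2 ^ L) / (2 * (3 / c)) =
      2 ^ L * (3 * c / 4) := by
    field_simp; ring
  rw [h5] at h4
  have hp : (0:ℝ) < 2 ^ L := by positivity
  have h6 := le_of_mul_le_mul_left h4 hp
  linarith

/-! ### The limits of the sequences `G` -/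

/-- the limit of the sequence `G` -/
noncomputable def paramG (G : ℕ → Bool) : Param := fun n H => dens (WG G) (fun _ => 1) n H

theorem isLimit_paramG (G : ℕ → Bool) : IsLimit (paramG G) := ⟨WG G, fun _ _ => rfl⟩

theorem subObject_refl (G : ℕ → Bool) : SubObject (paramG G) (paramG G) := by
  refine ⟨isLimit_paramG G, WG G, fun _ => 1, fun _ _ => rfl, measurable_const,
    fun t => ⟨zero_le_one, le_rfl⟩, ?_, fun _ _ => rfl⟩
  simp

theorem pos_of_cograph (G : ℕ → Bool) (hG : ∀ c m, ∃ i, m ≤ i ∧ G i = c) (ψ : Param)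
    (hψ : SubObject ψ (paramG G)) (H : Σ n : ℕ, SimpleGraph (Fin n)) (hH : H ∈ Cographs) :
    H ∈ Q ψ := by
  obtain ⟨_, W, f, hW, hf, hf01, hpos, hψ⟩ := hψ
  obtain ⟨n, H⟩ := H
  show 0 < ψ n H
  rw [hψ]
  apply div_pos _ (pow_pos hpos n)
  rcases hH with h0 | ⟨t, e, hte⟩
  · have h0' : n = 0 := h0
    subst h0'
    have : (fun x : Fin 0 → I => (∏ i, f (x i)) * weight W H x) = fun _ => 1 := by
      ext x
      simp [weight]
    rw [this]; simp
  · exact pos_dens G hG W (fun n Γ => (hW n Γ).symm) f hf hf01 hpos H t e hte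

theorem cograph_of_pos (G : ℕ → Bool) (H : Σ n : ℕ, SimpleGraph (Fin n))
    (hH : H ∈ Q (paramG G)) : H ∈ Cographs := by
  obtain ⟨n, H⟩ := H
  have h1 : 0 < dens (WG G) (fun _ => 1) n H := hH
  rw [dens_one] at h1
  have h2 : ∃ x : Fin n → I, weight (WG G) H x ≠ 0 := by
    by_contra h
    push Not at h
    rw [show (fun x : Fin n → I => weight (WG G) H x) = fun _ => 0 from funext h] at h1
    simp at h1
  obtain ⟨x, hx⟩ := h2
  rw [weight_WG] at hx
  have h3 : ∀ i j, i ≠ j → (H.Adj i j ↔ Wrel G (x i) (x j)) := by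
    by_contra h
    rw [if_neg h] at hx
    exact hx rfl
  rcases Nat.eq_zero_or_pos n with h0 | h0
  · exact Or.inl h0
  · right
    exact hasTree_points G n (Fin n) (Fintype.card_fin n) h0 (fun i => (x i : ℝ)) H.Adj
      (fun u => H.loopless.irrefl u) h3

theorem mem_PhiF (G : ℕ → Bool) (hG : ∀ c m, ∃ i, m ≤ i ∧ G i = c) : paramG G ∈ PhiF := by
  refine ⟨isLimit_paramG G, ?_, ?_⟩
  · ext H
    constructor
    · intro h
      exact cograph_of_pos G H (h _ (subObject_refl G))
    · intro h ψ hψ
      exact pos_of_cograph G hG ψ hψ H h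
  · ext H
    exact ⟨cograph_of_pos G H, fun h => pos_of_cograph G hG _ (subObject_refl G) H h⟩

/-! ### Incomparable limits -/

theorem first_diff (s L : ℕ) (x y : ℝ) (h1 : digs s x = digs s y) (h2 : digs L x ≠ digs L y) :
    ∃ k, s ≤ k ∧ k < L ∧ ∀ G : ℕ → Bool, (Wrel G x y ↔ G k = true) := by
  rw [digs_eq_iff] at h1
  rw [Ne, digs_eq_iff] at h2
  push Not at h2
  have h3 : ∃ k, dig k x ≠ dig k y := by
    obtain ⟨k, _, hk⟩ := h2; exact ⟨k, hk⟩
  refine ⟨Nat.find h3, ?_, ?_, ?_⟩
  · by_contra h
    exact Nat.find_spec h3 (h1 _ (not_le.1 h))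
  · obtain ⟨k, hk1, hk2⟩ := h2
    exact lt_of_le_of_lt (Nat.find_min' h3 hk2) hk1
  · intro G
    constructor
    · rintro ⟨k, k1, k2, k3⟩
      have : k = Nat.find h3 := by
        apply le_antisymm
        · by_contra hlt
          exact Nat.find_spec h3 (k1 _ (not_le.1 hlt))
        · exact Nat.find_min' h3 k2
      rw [← this]; exact k3
    · intro h
      exact ⟨_, fun j hj => by by_contra hne; exact Nat.find_min h3 hj hne, Nat.find_spec h3, h⟩

theorem sub_ineq (φ : Param) (G : ℕ → Bool) (h : SubObject φ (paramG G)) :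
    ∃ m : ℕ, ∀ n (H : SimpleGraph (Fin n)), ((1:ℝ) / 2) ^ (m * n) * φ n H ≤ paramG G n H := by
  obtain ⟨_, W, f, hW, hf, hf01, hpos, hψ⟩ := h
  obtain ⟨m, hm⟩ := exists_pow_lt_of_lt_one hpos (show (1:ℝ) / 2 < 1 by norm_num)
  refine ⟨m, fun n H => ?_⟩
  have hm1 : Measurable fun x : Fin n → I => (∏ i, f (x i)) * weight W H x :=
    (Finset.measurable_prod _ fun a _ => hf.comp (measurable_pi_apply a)).mul
      (measurable_weight W H)
  have hp0 : ∀ x : Fin n → I, 0 ≤ ∏ a, f (x a) := fun x =>
    Finset.prod_nonneg fun a _ => (hf01 _).1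
  have hp1 : ∀ x : Fin n → I, ∏ a, f (x a) ≤ 1 := fun x =>
    Finset.prod_le_one (fun a _ => (hf01 _).1) fun a _ => (hf01 _).2
  have h1 : ∫ x : Fin n → I, (∏ i, f (x i)) * weight W H x ≤ paramG G n H := by
    rw [hW, dens_one]
    apply integral_mono
    · apply integrable_of_bdd hm1 1
      intro x
      rw [abs_of_nonneg (mul_nonneg (hp0 x) (weight_nonneg W H x))]
      exact mul_le_one₀ (hp1 x) (weight_nonneg W H x) (weight_le_one W H x)
    · apply integrable_of_bdd (measurable_weight W H) 1
      intro x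
      rw [abs_of_nonneg (weight_nonneg W H x)]; exact weight_le_one W H x
    · intro x
      show (∏ i, f (x i)) * weight W H x ≤ weight W H x
      calc (∏ i, f (x i)) * weight W H x ≤ 1 * weight W H x :=
            mul_le_mul_of_nonneg_right (hp1 x) (weight_nonneg W H x)
        _ = _ := one_mul _
  have h0 : 0 ≤ ∫ x : Fin n → I, (∏ i, f (x i)) * weight W H x :=
    integral_nonneg fun x => mul_nonneg (hp0 x) (weight_nonneg W H x)
  rw [hψ]
  refine le_trans ?_ h1
  have hc : 0 < (∫ t, f t) ^ n := pow_pos hpos n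
  have h2 : ((1:ℝ) / 2) ^ (m * n) ≤ (∫ t, f t) ^ n := by
    rw [pow_mul]
    exact pow_le_pow_left₀ (by positivity) hm.le n
  show ((1:ℝ) / 2) ^ (m * n) * ((∫ x : Fin n → I, (∏ i, f (x i)) * weight W H x) /
    (∫ t, f t) ^ n) ≤ _
  rw [← mul_div_assoc, div_le_iff₀ hc, mul_comm]
  exact mul_le_mul_of_nonneg_left h2 h0

/-- the homogeneous graph -/
noncomputable def hom (c : Bool) (n : ℕ) : SimpleGraph (Fin n) := if c = true then ⊤ else ⊥

theorem hom_adj (c : Bool) (n : ℕ) (i j : Fin n) (hij : i ≠ j) :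
    (hom c n).Adj i j ↔ c = true := by
  cases c
  · simp [hom]
  · simp [hom, hij]

theorem upper (G : ℕ → Bool) (s e : ℕ) (c : Bool) (h : ∀ i, s ≤ i → i < e → G i = !c) :
    paramG G (2 ^ s + 1) (hom c (2 ^ s + 1)) ≤
      ((2 ^ s + 1 : ℕ) : ℝ) * ((2 ^ s + 1 : ℕ) : ℝ) * (2 * (1 / 2) ^ e) := by
  set n := 2 ^ s + 1 with hn
  have hpt : ∀ x : Fin n → I, weight (WG G) (hom c n) x ≤ coll e x - n := by
    intro x
    rw [weight_WG]
    have hd : ∀ i j : Fin n, (if i = j then (1:ℝ) else 0) ≤
        if digs e (x i) = digs e (x j) then (1:ℝ) else 0 := by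
      intro i j
      by_cases hij : i = j
      · rw [if_pos hij, hij, if_pos rfl]
      · rw [if_neg hij]; split_ifs <;> norm_num
    by_cases hx : ∀ i j, i ≠ j → ((hom c n).Adj i j ↔ Wrel G (x i) (x j))
    · rw [if_pos hx]
      have hcard : Fintype.card (Cube s) < Fintype.card (Fin n) := by
        rw [card_cube, Fintype.card_fin]; omega
      obtain ⟨i₀, j₀, hne, heq⟩ := Fintype.exists_ne_map_eq_of_card_lt
        (fun i : Fin n => digs s (x i)) hcard
      have heq2 : digs e (x i₀) = digs e (x j₀) := by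
        by_contra hne2
        obtain ⟨k, k1, k2, k3⟩ := first_diff s e _ _ heq hne2
        have h4 := hx i₀ j₀ hne
        rw [hom_adj c n i₀ j₀ hne, k3 G, h k k1 k2] at h4
        cases c <;> simp at h4
      have h5 : ∑ i : Fin n, ∑ j : Fin n, ((if i = j then (1:ℝ) else 0) +
          if i = i₀ then (if j = j₀ then (1:ℝ) else 0) else 0) ≤ coll e x := by
        unfold coll
        apply Finset.sum_le_sum; intro i _
        apply Finset.sum_le_sum; intro j _
        by_cases hi : i = i₀
        · by_cases hj : j = j₀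
          · rw [if_pos hi, if_pos hj, hi, hj, if_neg hne, if_pos heq2]; norm_num
          · rw [if_pos hi, if_neg hj, add_zero]; exact hd i j
        · rw [if_neg hi, add_zero]; exact hd i j
      have h6 : ∑ i : Fin n, ∑ j : Fin n, ((if i = j then (1:ℝ) else 0) +
          if i = i₀ then (if j = j₀ then (1:ℝ) else 0) else 0) = n + 1 := by
        simp only [Finset.sum_add_distrib, Finset.sum_ite_eq, Finset.sum_ite_eq',
          Finset.sum_ite_irrel, Finset.mem_univ, if_true, Finset.sum_const, Finset.card_univ,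
          Fintype.card_fin, nsmul_eq_mul, mul_one]
        simp
      linarith
    · rw [if_neg hx]
      have h5 : ∑ i : Fin n, ∑ j : Fin n, (if i = j then (1:ℝ) else 0) ≤ coll e x := by
        unfold coll
        apply Finset.sum_le_sum; intro i _
        apply Finset.sum_le_sum; intro j _
        exact hd i j
      have h6 : ∑ i : Fin n, ∑ j : Fin n, (if i = j then (1:ℝ) else 0) = n := by
        simp
      linarith
  show dens (WG G) (fun _ => 1) n (hom c n) ≤ _
  rw [dens_one]
  have hic : Integrable fun x : Fin n → I => coll e x := by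
    apply integrable_of_bdd (measurable_coll e) (n * n)
    intro x; rw [abs_of_nonneg (coll_nonneg e x)]; exact coll_le e x
  have hiw : Integrable fun x : Fin n → I => weight (WG G) (hom c n) x := by
    apply integrable_of_bdd (measurable_weight _ _) 1
    intro x
    rw [abs_of_nonneg (weight_nonneg _ _ x)]; exact weight_le_one _ _ x
  calc ∫ x : Fin n → I, weight (WG G) (hom c n) x ≤ ∫ x : Fin n → I, (coll e x - n) :=
        integral_mono hiw (hic.sub (integrable_const _)) hpt
    _ = (∫ x : Fin n → I, coll e x) - n := by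
        rw [integral_sub hic (integrable_const _)]; simp
    _ ≤ _ := by have := integral_coll e (n := n); linarith

theorem lower (G : ℕ → Bool) (s : ℕ) (c : Bool) (h : ∀ i, s ≤ i → i < 2 * s + 2 → G i = c) :
    (((1:ℝ) / 2) ^ (2 * s + 2)) ^ (2 ^ s + 1) ≤ paramG G (2 ^ s + 1) (hom c (2 ^ s + 1)) := by
  set n := 2 ^ s + 1 with hn
  set δ : ℝ := (1 / 2) ^ (2 * s + 2) with hδ
  have hδ0 : 0 < δ := by positivity
  have hnδ : 2 * (n : ℝ) * δ ≤ (1 / 2) ^ s := by
    have h1 : (n : ℝ) ≤ 2 * 2 ^ s := by
      have : n ≤ 2 * 2 ^ s := by have := Nat.one_le_two_pow (n := s); omega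
      exact_mod_cast this
    have h2 : (2:ℝ) ^ s * (1 / 2) ^ s = 1 := by rw [← mul_pow]; norm_num
    have h3 : δ = (1 / 2) ^ s * (1 / 2) ^ s * (1 / 4) := by
      rw [hδ, pow_add, two_mul, pow_add]; norm_num
    calc 2 * (n : ℝ) * δ ≤ 2 * (2 * 2 ^ s) * δ := by nlinarith
      _ = (2 ^ s * (1 / 2) ^ s) * (1 / 2) ^ s := by rw [h3]; ring
      _ = (1 / 2) ^ s := by rw [h2, one_mul]
  have hs1 : ((1:ℝ) / 2) ^ s ≤ 1 := pow_le_one₀ (by norm_num) (by norm_num)
  have hmem : ∀ (i : Fin n) (a : ℝ), 0 ≤ a → a ≤ 2 * i + 1 → a * δ ∈ I := by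
    intro i a h0 h1
    constructor
    · positivity
    · have h2 : (i : ℝ) + 1 ≤ n := by exact_mod_cast i.2
      calc a * δ ≤ (2 * n) * δ := mul_le_mul_of_nonneg_right (by linarith) hδ0.le
        _ ≤ 1 := hnδ.trans hs1
  let C : Fin n → Set I := fun i => Set.Ico
    ⟨(2 * i) * δ, hmem i _ (by positivity) (by linarith)⟩
    ⟨(2 * i + 1) * δ, hmem i _ (by positivity) le_rfl⟩
  have hC : ∀ i (t : I), t ∈ C i → (2 * (i : ℝ)) * δ ≤ t ∧ (t : ℝ) < (2 * i + 1) * δ :=
    fun i t ht => ⟨ht.1, ht.2⟩
  have hw : ∀ x ∈ Set.pi Set.univ C, weight (WG G) (hom c n) x = 1 := by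
    intro x hx
    rw [weight_WG, if_pos]
    intro i j hij
    have hsm : ∀ k : Fin n, (x k : ℝ) < (1 / 2) ^ s := by
      intro k
      have h1 := (hC k _ (hx k (Set.mem_univ _))).2
      have h2 : (k : ℝ) + 1 ≤ n := by exact_mod_cast k.2
      calc (x k : ℝ) < (2 * k + 1) * δ := h1
        _ ≤ (2 * n) * δ := mul_le_mul_of_nonneg_right (by linarith) hδ0.le
        _ ≤ _ := hnδ
    have hfar : ∀ a b : Fin n, a < b → δ < (x b : ℝ) - x a := by
      intro a b hab
      have h1 := (hC a _ (hx a (Set.mem_univ _))).2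
      have h2 := (hC b _ (hx b (Set.mem_univ _))).1
      have h3 : (a : ℝ) + 1 ≤ b := by
        have : (a : ℕ) + 1 ≤ b := hab
        exact_mod_cast this
      nlinarith
    have hne : digs (2 * s + 2) (x i) ≠ digs (2 * s + 2) (x j) := by
      intro heq
      have h1 := digs_close _ _ _ (x i).2.1 (x i).2.2 (x j).2.1 (x j).2.2 heq
      rw [abs_le] at h1
      rcases lt_or_gt_of_ne hij with hlt | hlt
      · have := hfar i j hlt
        linarith [h1.1]
      · have := hfar j i hlt
        linarith [h1.2]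
    obtain ⟨k, k1, k2, k3⟩ := first_diff s _ _ _ (digs_small s _ _ (hsm i) (hsm j)) hne
    rw [hom_adj c n i j hij, k3 G, h k k1 k2]
  have hvol : (volume : Measure (Fin n → I)).real (Set.pi Set.univ C) = δ ^ n := by
    have h1 : (volume : Measure (Fin n → I)) (Set.pi Set.univ C) = ENNReal.ofReal δ ^ n := by
      rw [volume_pi_pi]
      have : ∀ i, (volume : Measure I) (C i) = ENNReal.ofReal δ := by
        intro i
        show (volume : Measure I) (Set.Ico _ _) = _
        rw [unitInterval.volume_Ico]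
        congr 1
        show (2 * (i : ℝ) + 1) * δ - (2 * i) * δ = δ
        ring
      rw [Finset.prod_congr rfl fun i _ => this i]
      simp
    rw [Measure.real, h1, ENNReal.toReal_pow, ENNReal.toReal_ofReal hδ0.le]
  show _ ≤ dens (WG G) (fun _ => 1) n (hom c n)
  rw [dens_one, ← hvol]
  have hmC : MeasurableSet (Set.pi Set.univ C) :=
    MeasurableSet.univ_pi fun i => measurableSet_Ico
  rw [← integral_indicator_one hmC]
  apply integral_mono
  · exact (integrable_const (1:ℝ)).indicator hmC
  · apply integrable_of_bdd (measurable_weight _ _) 1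
    intro x
    rw [abs_of_nonneg (weight_nonneg _ _ x)]; exact weight_le_one _ _ x
  · intro x
    by_cases hx : x ∈ Set.pi Set.univ C
    · rw [Set.indicator_of_mem hx, hw x hx]; exact le_rfl
    · rw [Set.indicator_of_notMem hx]; exact weight_nonneg _ _ x

theorem incomparable (G G' : ℕ → Bool)
    (hw : ∀ N, ∃ (s e : ℕ) (c : Bool), N ≤ s ∧ 8 ^ s ≤ e ∧
      ∀ i, s ≤ i → i < e → G i = (!c) ∧ G' i = c) : ¬ SubObject (paramG G') (paramG G) := by
  intro hsub
  obtain ⟨m, hm⟩ := sub_ineq _ _ hsub
  obtain ⟨s, e, c, hs, he, hi⟩ := hw (m + 3)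
  have h1 := hm (2 ^ s + 1) (hom c (2 ^ s + 1))
  have hp : s < 2 ^ s := Nat.lt_two_pow_self
  have hp8 : 8 ≤ 2 ^ s := by
    calc 8 = 2 ^ 3 := by norm_num
      _ ≤ 2 ^ s := Nat.pow_le_pow_right (by norm_num) (by omega)
  have h8 : 8 ^ s = 2 ^ s * 2 ^ s * 2 ^ s := by
    rw [← mul_pow, ← mul_pow]; norm_num
  have hse : 2 * s + 2 ≤ e := by
    refine le_trans ?_ he
    rw [h8]; nlinarith
  have h2 := upper G s e c fun i a b => (hi i a b).1
  have h3 := lower G' s c fun i a b => (hi i a (by omega)).2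
  have h4 : ((1:ℝ) / 2) ^ (m * (2 ^ s + 1)) * (((1:ℝ) / 2) ^ (2 * s + 2)) ^ (2 ^ s + 1) ≤
      ((2 ^ s + 1 : ℕ) : ℝ) * ((2 ^ s + 1 : ℕ) : ℝ) * (2 * (1 / 2) ^ e) :=
    le_trans (mul_le_mul_of_nonneg_left h3 (by positivity)) (h1.trans h2)
  have h5 : ((2 ^ s + 1 : ℕ) : ℝ) ≤ 2 ^ (s + 1) := by
    have : 2 ^ s + 1 ≤ 2 ^ (s + 1) := by rw [pow_succ]; omega
    exact_mod_cast this
  have h6 : ((1:ℝ) / 2) ^ (m * (2 ^ s + 1) + (2 * s + 2) * (2 ^ s + 1)) ≤
      2 ^ (2 * s + 3) * (1 / 2) ^ e := by
    rw [pow_add, pow_mul _ (2 * s + 2)]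
    refine h4.trans ?_
    have h7 : ((2 ^ s + 1 : ℕ) : ℝ) * ((2 ^ s + 1 : ℕ) : ℝ) ≤ 2 ^ (s + 1) * 2 ^ (s + 1) :=
      mul_le_mul h5 h5 (by positivity) (by positivity)
    have h8 : (0:ℝ) ≤ 2 * (1 / 2) ^ e := by positivity
    calc ((2 ^ s + 1 : ℕ) : ℝ) * ((2 ^ s + 1 : ℕ) : ℝ) * (2 * (1 / 2) ^ e)
        ≤ 2 ^ (s + 1) * 2 ^ (s + 1) * (2 * (1 / 2) ^ e) := mul_le_mul_of_nonneg_right h7 h8
      _ = 2 ^ (2 * s + 3) * (1 / 2) ^ e := by
        rw [show 2 * s + 3 = (s + 1) + (s + 1) + 1 by ring, pow_add, pow_add]; ring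
  have h7 : (2:ℝ) ^ e ≤ 2 ^ (2 * s + 3 + (m * (2 ^ s + 1) + (2 * s + 2) * (2 ^ s + 1))) := by
    have a1 : ∀ k : ℕ, (2:ℝ) ^ k * (1 / 2) ^ k = 1 := fun k => by rw [← mul_pow]; norm_num
    set k := m * (2 ^ s + 1) + (2 * s + 2) * (2 ^ s + 1)
    calc (2:ℝ) ^ e = 2 ^ e * 2 ^ k * (1 / 2) ^ k := by rw [mul_assoc, a1, mul_one]
      _ ≤ 2 ^ e * 2 ^ k * (2 ^ (2 * s + 3) * (1 / 2) ^ e) :=
          mul_le_mul_of_nonneg_left h6 (by positivity)
      _ = (2 ^ e * (1 / 2) ^ e) * (2 ^ (2 * s + 3) * 2 ^ k) := by ring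
      _ = 2 ^ (2 * s + 3 + k) := by rw [a1, one_mul, ← pow_add]
  have h9 : e ≤ 2 * s + 3 + (m * (2 ^ s + 1) + (2 * s + 2) * (2 ^ s + 1)) :=
    (pow_le_pow_iff_right₀ (by norm_num : (1:ℝ) < 2)).1 h7
  have hms : m ≤ s := by omega
  rw [h8] at he
  generalize 2 ^ s = p at *
  nlinarith

/-! ### The sequences -/

/-- the ends of the windows -/
def ends : ℕ → ℕ
  | 0 => 1
  | k + 1 => 8 ^ ends k

theorem lt_ends (k : ℕ) : k < ends k := by
  induction k with
  | zero => exact Nat.one_pos
  | succ k ih =>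
    show k + 1 < 8 ^ ends k
    calc k + 1 ≤ ends k := ih
      _ < 8 ^ ends k := Nat.lt_pow_self (by norm_num)

theorem ends_lt_succ (k : ℕ) : ends k < ends (k + 1) := Nat.lt_pow_self (by norm_num)

theorem ends_mono : StrictMono ends := strictMono_nat_of_lt_succ ends_lt_succ

/-- the number of the window of `i` -/
def win (i : ℕ) : ℕ := Nat.findGreatest (fun k => ends k ≤ i) i

theorem win_eq (k i : ℕ) (h1 : ends k ≤ i) (h2 : i < ends (k + 1)) : win i = k := by
  unfold win
  rw [Nat.findGreatest_eq_iff]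
  refine ⟨(lt_ends k).le.trans h1, fun _ => h1, fun n hn _ h3 => ?_⟩
  have : ends (k + 1) ≤ ends n := ends_mono.monotone hn
  omega

/-- the value in the window `k` -/
def val (a : ℕ → Bool) (k : ℕ) : Bool :=
  if k % 4 = 1 then false else if k % 4 = 3 then true else a (Nat.unpair (k / 2)).1

/-- the sequence of `a` -/
def seq (a : ℕ → Bool) (i : ℕ) : Bool := val a (win i)

theorem seq_eq (a : ℕ → Bool) (k i : ℕ) (h1 : ends k ≤ i) (h2 : i < ends (k + 1)) :
    seq a i = val a k := by
  unfold seq; rw [win_eq k i h1 h2]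

theorem seq_both (a : ℕ → Bool) : ∀ c m, ∃ i, m ≤ i ∧ seq a i = c := by
  intro c m
  cases c
  · refine ⟨ends (4 * m + 1), (by omega : m ≤ 4 * m + 1).trans (lt_ends _).le, ?_⟩
    rw [seq_eq a _ _ le_rfl (ends_lt_succ _)]
    unfold val; rw [if_pos (by omega)]
  · refine ⟨ends (4 * m + 3), (by omega : m ≤ 4 * m + 3).trans (lt_ends _).le, ?_⟩
    rw [seq_eq a _ _ le_rfl (ends_lt_succ _)]
    unfold val; rw [if_neg (by omega), if_pos (by omega)]

theorem seq_incomparable (a b : ℕ → Bool) (hab : a ≠ b) :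
    ¬ SubObject (paramG (seq b)) (paramG (seq a)) := by
  apply incomparable
  intro N
  obtain ⟨j, hj⟩ := Function.ne_iff.1 hab
  let k := 2 * Nat.pair j N
  have hk : N ≤ k := by
    have := Nat.right_le_pair j N
    show N ≤ 2 * Nat.pair j N
    omega
  have hval : ∀ a : ℕ → Bool, val a k = a j := by
    intro a
    unfold val
    have h1 : k / 2 = Nat.pair j N := by show 2 * Nat.pair j N / 2 = _; omega
    have h2 : k % 2 = 0 := by show 2 * Nat.pair j N % 2 = _; omega
    rw [if_neg (by omega), if_neg (by omega), h1, Nat.unpair_pair]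
  refine ⟨ends k, ends (k + 1), b j, hk.trans (lt_ends k).le, le_rfl, fun i h1 h2 => ?_⟩
  rw [seq_eq a k i h1 h2, seq_eq b k i h1 h2, hval, hval]
  refine ⟨?_, rfl⟩
  revert hj
  cases a j <;> cases b j <;> simp

/-- **Theorem.** There are continuum many limits `φ` with `P φ = Q φ = Cographs` none of which is a
sub-object of another one. -/
theorem result : ∃ S : Set Param, S ⊆ PhiF ∧ Cardinal.mk S = Cardinal.continuum ∧
    ∀ φ ∈ S, ∀ ψ ∈ S, φ ≠ ψ → ¬ SubObject φ ψ ∧ ¬ SubObject ψ φ := by
  have hinj : Function.Injective fun a : ℕ → Bool => paramG (seq a) := by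
    intro a b hab
    by_contra hne
    have h1 := seq_incomparable a b hne
    have h2 : paramG (seq a) = paramG (seq b) := hab
    rw [← h2] at h1
    exact h1 (subObject_refl _)
  refine ⟨Set.range fun a : ℕ → Bool => paramG (seq a), ?_, ?_, ?_⟩
  · rintro _ ⟨a, rfl⟩
    exact mem_PhiF _ (seq_both a)
  · rw [Cardinal.mk_range_eq _ hinj]
    simp
  · rintro _ ⟨a, rfl⟩ _ ⟨b, rfl⟩ hne
    have hab : a ≠ b := fun h => hne (by rw [h])
    exact ⟨seq_incomparable b a hab.symm, seq_incomparable a b hab⟩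

end Pool.Agent.Results.MP_815355_co.Antichain
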